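import Pool.Agent.helper5.SYM.SpecB

/-!
# Project sy (MP_45d809_mp), module ADM: the quotient data are admissible
-/

set_option autoImplicit false

namespace Pool.Agent.SYM
open Finset CT Polynomial

lemma ADM_inj {V : Type} : Function.Injective (l0 : V → V × Fin 3) := by
  intro a b h
  exact (Prod.ext_iff.1 h).1

lemma ADM_mem_list {V : Type} (R : Finset V) (w : V × Fin 3) :
    w ∈ R.toList.map l0 ↔ w.1 ∈ R ∧ w.2 = 0 := by
  rw [List.mem_map]
  constructor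
  · rintro ⟨a, ha, rfl⟩
    exact ⟨Finset.mem_toList.1 ha, rfl⟩
  · rintro ⟨h1, h2⟩
    exact ⟨w.1, Finset.mem_toList.2 h1, Prod.ext rfl h2.symm⟩

lemma ADM_mem_image {V : Type} [DecidableEq V] (R : Finset V) (w : V × Fin 3) :
    w ∈ R.image l0 ↔ w.1 ∈ R ∧ w.2 = 0 := by
  rw [Finset.mem_image]
  constructor
  · rintro ⟨a, ha, rfl⟩
    exact ⟨ha, rfl⟩
  · rintro ⟨h1, h2⟩
    exact ⟨w.1, h1, Prod.ext rfl h2.symm⟩

theorem ADM : ADM_stmt := by
  intro V A _ _ _ _ _ G θ R J K γ κ e α C γ' hD hQ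
  have hneq : ((1 : Fin 3) ≠ 0) := by decide
  have hneq2 : ((2 : Fin 3) ≠ 0) := by decide
  have hneq3 : ((1 : Fin 3) ≠ 2) := by decide
  refine
    { nd := (Finset.nodup_toList R).map ADM_inj
      dJK := (Finset.disjoint_image ADM_inj).2 hD.dJK
      dC := ?_
      dJ := ?_
      dK := ?_
      act := ?_
      vol := hQ.vol
      spare := ?_ }
  · intro c hc
    have h1 := (hQ.capv c hc).1
    refine ⟨?_, ?_, ?_⟩
    · intro h; rw [ADM_mem_list] at h; rw [h.2] at h1; exact hneq h1.symm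
    · intro h; rw [ADM_mem_image] at h; rw [h.2] at h1; exact hneq h1.symm
    · intro h; rw [ADM_mem_image] at h; rw [h.2] at h1; exact hneq h1.symm
  · intro j hj h
    rw [ADM_mem_image] at hj
    rw [ADM_mem_list] at h
    exact (Finset.disjoint_left.1 hD.dRJ) h.1 hj.1
  · intro j hj h
    rw [ADM_mem_image] at hj
    rw [ADM_mem_list] at h
    exact (Finset.disjoint_left.1 hD.dRK) h.1 hj.1
  · refine ⟨hQ.act, ?_⟩
    intro d
    rw [hQ.act' d]
    unfold XX Ed jd dts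
    simp only [Finset.mem_union, Finset.mem_product, Finset.mem_univ, and_true, Finset.mem_insert,
      Finset.mem_singleton, List.mem_toFinset, ADM_mem_list, ADM_mem_image]
    constructor
    · rintro (⟨x, hx, rfl⟩ | h)
      · rcases hx with (hx | ⟨hx, hx2⟩) | ⟨hx, hx2⟩
        · exact Or.inl ⟨hx, rfl⟩
        · exact Or.inr (Or.inl (Or.inr ⟨⟨hx, rfl⟩, hx2⟩))
        · exact Or.inr (Or.inr ⟨⟨hx, rfl⟩, hx2⟩)
      · exact Or.inr (Or.inl (Or.inl h))
    · rintro (⟨h1, h2⟩ | ((h | ⟨⟨h1, h2⟩, h3⟩) | ⟨⟨h1, h2⟩, h3⟩))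
      · exact Or.inl ⟨(d.1.1, d.2), Or.inl (Or.inl h1), Prod.ext (Prod.ext rfl h2.symm) rfl⟩
      · exact Or.inr h
      · exact Or.inl ⟨(d.1.1, d.2), Or.inl (Or.inr ⟨h1, h3⟩), Prod.ext (Prod.ext rfl h2.symm) rfl⟩
      · exact Or.inl ⟨(d.1.1, d.2), Or.inr ⟨h1, h3⟩, Prod.ext (Prod.ext rfl h2.symm) rfl⟩
  · obtain ⟨v⟩ := (inferInstance : Nonempty V)
    refine ⟨(v, 2), ?_, ?_, ?_, ?_⟩
    · intro h; rw [ADM_mem_list] at h; exact hneq2 h.2
    · intro h; rw [ADM_mem_image] at h; exact hneq2 h.2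
    · intro h; rw [ADM_mem_image] at h; exact hneq2 h.2
    · intro c hc h
      have h1 := (hQ.capv c hc).1
      rw [h] at h1
      exact hneq3 h1.symm

end Pool.Agent.SYM
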