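import Pool.Agent.helper56.CT.Fin2

/-!
# Project sy (MP_45d809_mp): symmetries of a counterexample - definitions

A matching is an involution `e` of the darts `W × Fin 4` (see `helper56/CT/Defs.lean`): `join`,
`lp`, `sm` (smoothing of a vertex), `ls` (number of loops split off), `Act A e` (`e` is an
involution whose non-fixed points are the darts of `A`), `dts S` (the darts at the vertices of
`S`), `pr` (the three pairings of the four darts of a vertex).

New: voltages in an abelian group `A`. The strand from `d` to `e d` has the voltage `α d`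
(and `α (e d) = - α d`).
-/

set_option autoImplicit false

namespace Pool.Agent.SYM
open Finset CT Polynomial

/-- The partner of the dart `i` in the pairing `pr t`. -/
def pa : Fin 3 → Fin 4 → Fin 4 := ![![1, 0, 3, 2], ![2, 3, 0, 1], ![3, 2, 1, 0]]

/-- The transition system `t`: the partner of a dart. -/
def tr {W : Type} (t : W → Fin 3) (d : W × Fin 4) : W × Fin 4 := (d.1, pa (t d.1) d.2)

section volt
variable {D A : Type} [DecidableEq D] [AddCommGroup A]

/-- The voltages after joining `x` and `y` by a strand of voltage `β`. -/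
def jv (e : D → D) (α : D → A) (x y : D) (β : A) : D → A := fun z =>
  if z = x ∨ z = y then 0
  else if e z = x then α z + β + α y
  else if e z = y then α z - β + α x
  else α z

omit [DecidableEq D] in
/-- `α` is a voltage assignment of the matching `e`. -/
def Vol (e : D → D) (α : D → A) : Prop := (∀ d, α (e d) = - α d) ∧ ∀ d, e d = d → α d = 0

omit [DecidableEq D] in
/-- The number of circuits over a loop of voltage `h`. -/
noncomputable def wA (h : A) : ℕ := Nat.card A / addOrderOf h

/-- The number of circuits over the loop split off by joining `x` and `y` with voltage `β`. -/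
noncomputable def lv (e : D → D) (α : D → A) (x y : D) (β : A) : ℕ :=
  if e x = y then wA (α x - β) else 0

omit [DecidableEq D] in
/-- `Φ` labels the darts by functions `A → Bool`, compatible with `e` and `α`. -/
def Lab (e : D → D) (α : D → A) (Φ : D → A → Bool) : Prop :=
  (∀ d g, Φ (e d) (g + α d) = Φ d g) ∧ ∀ d, e d = d → Φ d = fun _ => false

end volt

section list
variable {W A : Type} [DecidableEq W] [AddCommGroup A]

/-- The voltages after smoothing `u` along the pairing `t`. -/
def smv (e : W × Fin 4 → W × Fin 4) (α : W × Fin 4 → A) (u : W) (t : Fin 3) : W × Fin 4 → A :=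
  jv (join e (u, (pr t).1) (u, (pr t).2.1)) (jv e α (u, (pr t).1) (u, (pr t).2.1) 0)
    (u, (pr t).2.2.1) (u, (pr t).2.2.2) 0

/-- The number of circuits over the loops split off by smoothing `u` along `t`. -/
noncomputable def lsv (e : W × Fin 4 → W × Fin 4) (α : W × Fin 4 → A) (u : W) (t : Fin 3) : ℕ :=
  lv e α (u, (pr t).1) (u, (pr t).2.1) 0 +
    lv (join e (u, (pr t).1) (u, (pr t).2.1)) (jv e α (u, (pr t).1) (u, (pr t).2.1) 0)
      (u, (pr t).2.2.1) (u, (pr t).2.2.2) 0

/-- The number of circuits over the loops split off by smoothing the vertices of the list. -/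
noncomputable def lpsv :
    List W → (W × Fin 4 → W × Fin 4) → (W × Fin 4 → A) → (W → Fin 3) → ℕ
  | [], _, _, _ => 0
  | u :: L, e, α, t => lsv e α u (t u) + lpsv L (sm e u (t u)) (smv e α u (t u)) t

/-- The matching after smoothing the vertices of the list. -/
def fe : List W → (W × Fin 4 → W × Fin 4) → (W → Fin 3) → (W × Fin 4 → W × Fin 4)
  | [], e, _ => e
  | u :: L, e, t => fe L (sm e u (t u)) t

/-- The voltages after smoothing the vertices of the list. -/
def fa : List W → (W × Fin 4 → W × Fin 4) → (W × Fin 4 → A) → (W → Fin 3) → (W × Fin 4 → A)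
  | [], _, α, _ => α
  | u :: L, e, α, t => fa L (sm e u (t u)) (smv e α u (t u)) t

/-- The functions `W → Fin 3` which vanish outside `S`. -/
def pf [Fintype W] (S : Finset W) : Finset (W → Fin 3) :=
  Fintype.piFinset fun w => if w ∈ S then univ else {0}

/-- Sum over the smoothings without loops. -/
def NL (R : (W × Fin 4 → W × Fin 4) → ZMod 2) : List W → (W × Fin 4 → W × Fin 4) → ZMod 2
  | [], e => R e
  | u :: L, e => ∑ t : Fin 3, if ls e u t = 0 then NL R L (sm e u t) else 0

/-- The voltage of the loop split off (if there is only one). -/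
def vl (e : W × Fin 4 → W × Fin 4) (α : W × Fin 4 → ZMod 2) (u : W) (t : Fin 3) : ZMod 2 :=
  (if e (u, (pr t).1) = (u, (pr t).2.1) then α (u, (pr t).1) else 0) +
  (if join e (u, (pr t).1) (u, (pr t).2.1) (u, (pr t).2.2.1) = (u, (pr t).2.2.2)
    then jv e α (u, (pr t).1) (u, (pr t).2.1) 0 (u, (pr t).2.2.1) else 0)

/-- The number mod 2 of the smoothings with exactly one loop, counted with its voltage. -/
def F1 : List W → (W × Fin 4 → W × Fin 4) → (W × Fin 4 → ZMod 2) → ZMod 2
  | [], _, _ => 0
  | u :: L, e, α => ∑ t : Fin 3,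
      if ls e u t = 0 then F1 L (sm e u t) (smv e α u t)
      else if ls e u t = 1 then vl e α u t * NL (fun _ => 1) L (sm e u t) else 0

/-- The generating polynomial of the circuits, with the final value `Ω`. -/
noncomputable def SA (Ω : (W × Fin 4 → W × Fin 4) → (W × Fin 4 → A) → (ZMod 2)[X]) :
    List W → (W × Fin 4 → W × Fin 4) → (W × Fin 4 → A) → (ZMod 2)[X]
  | [], e, α => Ω e α
  | u :: L, e, α => ∑ t : Fin 3, X ^ lsv e α u t * SA Ω L (sm e u t) (smv e α u t)

end list

/-- The number of loops split off by smoothing the vertices of the list. -/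
def lps {W : Type} [DecidableEq W] :
    List W → (W × Fin 4 → W × Fin 4) → (W → Fin 3) → ℕ
  | [], _, _ => 0
  | u :: L, e, t => ls e u (t u) + lps L (sm e u (t u)) t

/-! ### Constraints at ends -/

section ends
variable {W A : Type} [AddCommGroup A]

/-- A dead end with label `γ`. -/
def CapC (γ : A) (φ : A → Bool) : Prop := ∀ g, φ (g + γ) = φ g

/-- The three pairings of the darts `d, γ d, d', γ d'` over two ends. -/
def VC (γ : A) (t : Fin 3) (φ ψ : A → Bool) : Prop :=
  if t = 0 then CapC γ φ ∧ CapC γ ψ else if t = 1 then φ = ψ else ∀ g, ψ (g + γ) = φ g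

/-- The ends `(j, 0)`, `(j, 1)`, `j ∈ J`. -/
def jd [DecidableEq W] (J : Finset W) : Finset (W × Fin 4) := J ×ˢ {0, 1}

/-- The number of vertices of `J` whose two ends are joined to each other. -/
def so [DecidableEq W] (J : Finset W) (e : W × Fin 4 → W × Fin 4) : ℕ :=
  (J.filter fun j => e (j, 0) = (j, 1)).card

/-- The elements of order 2. -/
def O2 (A : Type) [AddCommGroup A] : Set A := {g | g ≠ 0 ∧ g + g = 0}

/-- Labelings with dead ends `C` (labels `γ`), vertices `J` with two ends (resolved along `t`),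
vertices `K` with the one end `(k, 0)` (resolved by the label `ζ k`) and zero at the vertices of
`Z`. -/
def LabK (C : Finset (W × Fin 4)) (J K Z : Finset W) (γ : W × Fin 4 → A)
    (e : W × Fin 4 → W × Fin 4) (α : W × Fin 4 → A) (t : W → Fin 3) (ζ : W → A)
    (Φ : W × Fin 4 → A → Bool) : Prop :=
  Lab e α Φ ∧ (∀ c ∈ C, CapC (γ c) (Φ c)) ∧
    (∀ j ∈ J, VC (γ (j, 0)) (t j) (Φ (j, 0)) (Φ (j, 1))) ∧
    (∀ k ∈ K, CapC (ζ k) (Φ (k, 0))) ∧ ∀ k ∈ Z, Φ (k, 0) = fun _ => false

/-- The number of circuits over the final structure (`2 ^ LK` is the number of labelings). -/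
noncomputable def LK (C : Finset (W × Fin 4)) (J K Z : Finset W) (γ : W × Fin 4 → A)
    (e : W × Fin 4 → W × Fin 4) (α : W × Fin 4 → A) (t : W → Fin 3) (ζ : W → A) : ℕ :=
  Nat.log 2 (Nat.card {Φ : W × Fin 4 → A → Bool // LabK C J K Z γ e α t ζ Φ})

open Classical in
/-- The functions `W → A` with values of order 2 on `K` and 0 outside `K`. -/
noncomputable def pz [Fintype W] [Fintype A] (K : Finset W) : Finset (W → A) :=
  (univ : Finset (W → A)).filter fun ζ => (∀ k ∈ K, ζ k ∈ O2 A) ∧ ∀ k, k ∉ K → ζ k = 0

/-- The final value: the sum over all resolutions at the vertices of `J` and `K`. -/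
noncomputable def Om [Fintype W] [DecidableEq W] [Fintype A] (C : Finset (W × Fin 4))
    (J K Z : Finset W) (γ : W × Fin 4 → A) (e : W × Fin 4 → W × Fin 4) (α : W × Fin 4 → A) :
    (ZMod 2)[X] :=
  ∑ t ∈ pf J, ∑ ζ ∈ pz K, X ^ LK C J K Z γ e α t ζ

/-- The ends. -/
def Ed [DecidableEq W] (C : Finset (W × Fin 4)) (J K : Finset W) : Finset (W × Fin 4) :=
  C ∪ jd J ∪ K ×ˢ {0}

/-- Admissible data. -/
structure Adm [DecidableEq W] (L : List W) (C : Finset (W × Fin 4)) (J K : Finset W)
    (e : W × Fin 4 → W × Fin 4) (α : W × Fin 4 → A) : Prop where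
  nd : L.Nodup
  dJK : Disjoint J K
  dC : ∀ c ∈ C, c.1 ∉ L ∧ c.1 ∉ J ∧ c.1 ∉ K
  dJ : ∀ j ∈ J, j ∉ L
  dK : ∀ k ∈ K, k ∉ L
  act : Act (dts L.toFinset ∪ Ed C J K) e
  vol : Vol e α
  spare : ∃ w, w ∉ L ∧ w ∉ J ∧ w ∉ K ∧ ∀ c ∈ C, c.1 ≠ w

end ends

/-! ### Circuits of two maps -/

section circuits
variable {D : Type}

/-- The circuits of the maps `s`, `τ`. -/
def Cir (s τ : D → D) : Type := Quot fun d d' : D => d' = s d ∨ d' = τ d

/-- The circuit of a dart. -/
def cir (s τ : D → D) (d : D) : Cir s τ := Quot.mk _ d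

/-- The number of circuits avoiding the darts with the property `Q`. -/
noncomputable def nav (s τ : D → D) (Q : D → Prop) : ℕ :=
  Nat.card {c : Cir s τ // ∀ d : D, Q d → cir s τ d ≠ c}

end circuits

/-! ### Transition systems of a graph -/

section graph
variable {V : Type} {G : SimpleGraph V}

/-- A transition system: a pairing of the darts at every vertex. -/
def IsTS (τ : G.Dart → G.Dart) : Prop :=
  (∀ d, τ (τ d) = d) ∧ (∀ d, (τ d).fst = d.fst) ∧ ∀ d, τ d ≠ d

/-- The number of circuits of `τ` which avoid the darts with the property `Q`. -/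
noncomputable def gav (τ : G.Dart → G.Dart) (Q : G.Dart → Prop) : ℕ :=
  nav (fun d : G.Dart => d.symm) τ Q

/-- The action of an automorphism on the darts. -/
def sd (σ : G ≃g G) (d : G.Dart) : G.Dart := ⟨(σ d.fst, σ d.snd), σ.map_rel_iff.2 d.adj⟩

/-- `τ` is invariant under `σ`. -/
def Inv (σ : G ≃g G) (τ : G.Dart → G.Dart) : Prop := ∀ d, τ (sd σ d) = sd σ (τ d)

/-- The number of transition systems with exactly three circuits. -/
noncomputable def N3 (G : SimpleGraph V) : ℕ :=
  Nat.card {τ : G.Dart → G.Dart // IsTS τ ∧ gav τ (fun _ => False) = 3}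

/-- The number of transition systems with exactly one circuit not passing through `w`. -/
noncomputable def N1 (G : SimpleGraph V) (w : V) : ℕ :=
  Nat.card {τ : G.Dart → G.Dart // IsTS τ ∧ gav τ (fun d => d.fst = w) = 1}

end graph

end Pool.Agent.SYM
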