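import Pool.Agent.helper5.SYM.SpecA2

set_option autoImplicit false

namespace Pool.Agent.SYM
open Finset CT Polynomial

theorem EV42_NL0 {W : Type} [DecidableEq W] (L : List W) : ∀ e : W × Fin 4 → W × Fin 4,
    NL (fun _ => 0) L e = 0 := by
  induction L with
  | nil => intro e; rfl
  | cons u L ih =>
    intro e
    show ∑ t : Fin 3, (if ls e u t = 0 then NL (fun _ => 0) L (sm e u t) else 0) = 0
    refine Finset.sum_eq_zero fun t _ => ?_
    rw [ih]
    simp

theorem EV42_mem {W : Type} [DecidableEq W] (C : Finset (W × Fin 4)) (J K : Finset W) (x : W × Fin 4)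
    (hx : x ∈ Ed C J K) : x ∈ C ∨ x.1 ∈ J ∨ x.1 ∈ K := by
  unfold Ed jd at hx
  rw [Finset.mem_union, Finset.mem_union, Finset.mem_product, Finset.mem_product] at hx
  rcases hx with (h | h) | h
  · exact Or.inl h
  · exact Or.inr (Or.inl h.1)
  · exact Or.inr (Or.inr h.1)

theorem EV42 (hWT : WT_stmt) (hSMA : SMA_stmt) (hSC1 : SC1_stmt) (hNLC : NLC_stmt) (hF12 : F12_stmt)
    (hL4 : L4_stmt) (hPS4 : PS4_stmt) (hPAR : PAR_stmt)   : EV42_stmt := by
  have _ := hWT
  have _ := hSMA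
  intro W A _ _ _ _ L C J K w γ e α hA hadm hwK hγC hγJ hL
  obtain ⟨par, hpar⟩ := hPAR A hA
  have hEL : ∀ x ∈ Ed C J K, x.1 ∉ L := by
    intro x hx
    rcases EV42_mem C J K x hx with h | h | h
    · exact (hadm.dC x h).1
    · exact hadm.dJ x.1 h
    · exact hadm.dK x.1 h
  have hCJK : ∀ c ∈ C, c.1 ∉ J ∧ c.1 ∉ K := fun c hc => (hadm.dC c hc).2
  have hvol0 : ∀ e' : W × Fin 4 → W × Fin 4, Vol e' (fun _ => (0 : A)) := by
    intro e'
    exact ⟨fun d => by simp, fun d _ => rfl⟩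
  have hps : ∀ (e' : W × Fin 4 → W × Fin 4) (α' : W × Fin 4 → A), Act (Ed C J K) e' → Vol e' α' →
      (Om C J K {w} γ e' α').coeff 0 = (if (Ed C J K).card = 2 then 1 else 0) ∧
      ((Ed C J K).card ≠ 4 → (Om C J K {w} γ e' α').coeff 1 = 0) ∧
      (Om C J K {w} γ e' α').coeff 1 = (Om C J K {w} γ e' (fun _ => (0 : A))).coeff 1 := by
    intro e' α' h1 h2
    exact hPS4 W A C J K w γ e' α' (fun _ => 0) hA hadm.dJK hCJK hwK hγC hγJ h1 h2 (hvol0 e')
  have hmain := hSC1 W A (Om C J K {w} γ) (if (Ed C J K).card = 2 then 1 else 0)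
    (fun e' => (Om C J K {w} γ e' (fun _ => (0 : A))).coeff 1) par L (Ed C J K) e α hpar hadm.nd hEL
    hadm.act hadm.vol (fun e' α' h1 h2 => ⟨(hps e' α' h1 h2).1, (hps e' α' h1 h2).2.2⟩)
  rw [hmain]
  have hNL : (Ed C J K).card ≠ 4 →
      NL (fun e' => (Om C J K {w} γ e' (fun _ => (0 : A))).coeff 1) L e = 0 := by
    intro h4
    rw [hNLC W _ (fun _ => 0) L (Ed C J K) e hadm.nd hEL hadm.act
      (fun e' h' => (hps e' _ h' (hvol0 e')).2.1 h4)]
    exact EV42_NL0 L e
  by_cases h2 : (Ed C J K).card = 2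
  · rw [if_pos h2, one_mul, hNL (by omega), add_zero]
    obtain ⟨w0, hw0L, hw0J, hw0K, hw0C⟩ := hadm.spare
    have hnot : ∀ i : Fin 4, (w0, i) ∉ Ed C J K := by
      intro i hi
      rcases EV42_mem C J K _ hi with h | h | h
      · exact hw0C _ h rfl
      · exact hw0J h
      · exact hw0K h
    have hvolp : Vol e (fun d => par (α d)) := by
      refine ⟨fun d => ?_, fun d hd => ?_⟩
      · show par (α (e d)) = -par (α d)
        rw [hadm.vol.1 d, map_neg]
      · show par (α d) = 0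
        rw [hadm.vol.2 d hd, map_zero]
    exact hF12 W L (Ed C J K) e (fun d => par (α d)) (w0, 0) (w0, 1) hadm.nd hEL h2 (hL (by omega)) hadm.act hvolp
      hw0L hw0L (hnot 0) (hnot 1) (by
        intro h
        have h' : (0 : Fin 4) = 1 := congrArg Prod.snd h
        exact absurd h' (by decide))
  · rw [if_neg h2, zero_mul, zero_add]
    by_cases h4 : (Ed C J K).card = 4
    · exact hL4 W _ L (Ed C J K) e hadm.nd hEL h4 (hL (by omega)) hadm.act
    · exact hNL h4

end Pool.Agent.SYM
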