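import Pool.Agent.helper5.SYM.SpecA2

/-!
# sy:EVF2 (after helper11/SYM/EVF.lean)
-/

set_option autoImplicit false

namespace Pool.Agent.SYM
open Finset CT Polynomial

theorem EVF2 (hSC0 : SC0_stmt) (hL4 : L4_stmt) (hEVB : EVB_stmt) : EVF2_stmt := by
  intro W _ _ L C J K e α hA h3 h2 k hk
  obtain ⟨hdiv, hB⟩ := hEVB W L C J K e α hA
  rw [hB, coeff_X_pow_mul']
  split_ifs with hle
  · have hJ : J.card = 0 := by omega
    have hCK : C.card + K.card = 4 := by omega
    have hk0 : k - (J.card + (C.card + K.card) / 2) = 0 := by omega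
    rw [hk0]
    have hJe : J = ∅ := Finset.card_eq_zero.1 hJ
    subst hJe
    have hE : ∀ x ∈ Ed C ∅ K, x.1 ∉ L := by
      intro x hx
      unfold Ed jd at hx
      rw [Finset.mem_union, Finset.mem_union] at hx
      rcases hx with (hx | hx) | hx
      · exact (hA.dC x hx).1
      · exact absurd (Finset.mem_product.1 hx).1 (Finset.notMem_empty _)
      · exact hA.dK _ (Finset.mem_product.1 hx).1
    have hcard : (Ed C ∅ K).card = 4 := by
      unfold Ed jd
      rw [Finset.empty_product, Finset.union_empty, Finset.card_union_of_disjoint,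
        Finset.card_product, Finset.card_singleton, mul_one]
      · exact hCK
      · rw [Finset.disjoint_left]
        intro x hx hx'
        exact (hA.dC x hx).2.2 (Finset.mem_product.1 hx').1
    have h0 := hSC0 W (ZMod 2) (fun e' _ => X ^ so ∅ e')
      (fun e' => (X ^ so ∅ e' : (ZMod 2)[X]).coeff 0) L (Ed C ∅ K) e α hA.nd hE hA.act hA.vol
      (fun e' α' _ _ => rfl)
    rw [h0]
    exact hL4 W _ L (Ed C ∅ K) e hA.nd hE hcard (h2 hJ (by omega)) hA.act
  · rfl

end Pool.Agent.SYM
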