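import Pool.Agent.helper5.SYM.SpecB

set_option autoImplicit false

namespace Pool.Agent.SYM
open Finset CT Polynomial

theorem FIN_nofix (hIV1 : IV1_stmt) (hIV2 : IV2_stmt) {V : Type} [Fintype V] [DecidableEq V]
    (G : SimpleGraph V) (hG : FourRegular G) (hn : 7 ≤ Fintype.card V) (hc : G.Connected)
    (h3 : Odd (N3 G)) (σ : G ≃g G) (hσ : Invol σ) (d : G.Dart) : sd σ d ≠ d := by
  intro hd
  by_cases hw : ∀ v, ∃ d : G.Dart, d.fst = v ∧ sd σ d ≠ d
  · exact hIV1 V G σ hG hn h3 hσ ⟨d, hd⟩ hw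
  · push Not at hw
    obtain ⟨w, hw⟩ := hw
    exact hIV2 V G σ w hG hn hc h3 hσ hw

/-- A vertex stabiliser of order divisible by 4 contains a group of order 4 acting freely on the
darts. -/
theorem FIN_four (hFRE : FRE_stmt) {V : Type} [Fintype V] [DecidableEq V] (G : SimpleGraph V)
    (v : V) (h4 : 4 ∣ Nat.card {σ : G ≃g G // σ v = v})
    (hf : ∀ σ : G ≃g G, Invol σ → ∀ d : G.Dart, sd σ d ≠ d) :
    ∃ (A : Type) (_ : AddCommGroup A) (_ : Fintype A) (θ : A → (G ≃g G)), Nat.card A = 4 ∧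
      (∀ a b v, θ (a + b) v = θ a (θ b v)) ∧ (∀ v, θ 0 v = v) ∧ (∀ d, Yf θ d) ∧
      ∀ a, θ a v = v := by
  classical
  let S : Subgroup (G ≃g G) :=
    { carrier := {σ | σ v = v}
      mul_mem' := by
        intro a b ha hb
        show a (b v) = v
        rw [show b v = v from hb]; exact ha
      one_mem' := rfl
      inv_mem' := by
        intro a ha
        show a.symm v = v
        rw [RelIso.symm_apply_eq]
        exact (show a v = v from ha).symm }
  have hfin : Finite (G ≃g G) := Finite.of_injective (fun σ : G ≃g G => (σ : V → V))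
    (fun a b h => by
      ext x
      exact congrFun h x)
  have hS : 4 ∣ Nat.card S := h4
  have h2 : Fact (Nat.Prime 2) := ⟨Nat.prime_two⟩
  obtain ⟨Q, hQ⟩ := Sylow.exists_subgroup_card_pow_prime (G := S) 2 (n := 2) (by norm_num; exact hS)
  have hQ4 : Nat.card Q = 2 ^ 2 := hQ
  let P : Subgroup (G ≃g G) := Q.map S.subtype
  have hPc : Nat.card P = 2 ^ 2 := by
    rw [← hQ4]
    exact (Nat.card_congr (Subgroup.equivMapOfInjective Q S.subtype
      (Subgroup.subtype_injective S)).toEquiv).symm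
  have hPp : IsPGroup 2 P := IsPGroup.of_card hPc
  have hPv : ∀ p ∈ P, p v = v := by
    intro p hp
    obtain ⟨q, _, rfl⟩ := hp
    exact q.2
  letI : CommGroup P := IsPGroup.commGroupOfCardEqPrimeSq hPc
  letI : Finite P := Subtype.finite
  refine ⟨Additive P, inferInstance, Fintype.ofFinite _, fun a => (a.toMul : P).1, ?_, ?_, ?_, ?_,
    ?_⟩
  · rw [show Nat.card (Additive P) = Nat.card P from rfl, hPc]; norm_num
  · intro a b w
    rfl
  · intro w
    rfl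
  · intro d a ha
    have h5 := hFRE V G P hPp hf (a.toMul : P).1 (a.toMul : P).2 d ha
    have h6 : (a.toMul : P) = 1 := Subtype.ext h5
    exact h6
  · intro a
    exact hPv _ (a.toMul : P).2

theorem FIN (hLNK3 : LNK3_stmt) (hCNX : CNX_stmt) (hIV0 : IV0_stmt) (hIV1 : IV1_stmt)
    (hIV2 : IV2_stmt) (hFRE : FRE_stmt) (hOR4 : OR4_stmt) (hDH : DH_stmt) {V : Type} [Fintype V]
    [DecidableEq V] (G : SimpleGraph V) (hG : FourRegular G) (hn : 7 ≤ Fintype.card V)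
    (hv : ∃ v, ¬ C2Is (decompletion G v) (ZMod 2) 0) :
    (∀ σ : G ≃g G, Invol σ → nfx σ ≤ 2 ∧ nin σ ≤ 2 ∧
      (∀ u w, G.Adj u w → ¬ (σ u = u ∧ σ w = w)) ∧ ¬ (nfx σ = 1 ∧ nin σ = 0)) ∧
    (∀ v, ¬ 4 ∣ Nat.card {σ : G ≃g G // σ v = v}) ∧
    ∀ P : Subgroup (G ≃g G), IsPGroup 2 P →
      ∃ k, 0 < k ∧ ∃ f : P →* DihedralGroup k, Function.Injective f := by
  obtain ⟨v, hv⟩ := hv
  have h3 : Odd (N3 G) := hLNK3 V G v hG hn hv
  have hc : G.Connected := hCNX V G v hG hn hv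
  have ht : ¬ HasTwins G := fun h => hv (fin_twins G hG hn h v).1
  have hf : ∀ σ : G ≃g G, Invol σ → ∀ d : G.Dart, sd σ d ≠ d := fun σ hσ d =>
    FIN_nofix hIV1 hIV2 G hG hn hc h3 σ hσ d
  refine ⟨?_, ?_, ?_⟩
  · intro σ hσ
    obtain ⟨h1, h2, h4⟩ := hIV0 V G σ hG hn h3 ht hσ (hf σ hσ)
    refine ⟨h1, h2, ?_, h4⟩
    intro u w huw h5
    apply hf σ hσ ⟨(u, w), huw⟩
    apply SimpleGraph.Dart.ext
    simp [sd, h5.1, h5.2]
  · intro v h
    obtain ⟨A, iA, iF, θ, h5, h6, h7, h8, h9⟩ := FIN_four hFRE G v h hf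
    exact hOR4 V A G θ v h5 hG hn h3 ht h6 h7 h8 h9
  · intro P hP
    exact hDH V G P hP h3 hf

end Pool.Agent.SYM
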