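import Pool.Agent.helper5.SYM.FIN
import Pool.Agent.helper13.SYM.PAR
import Pool.Agent.helper14.SYM.GPA
import Pool.Agent.helper14.SYM.NLC
import Pool.Agent.helper16.SYM.JV
import Pool.Agent.helper16.SYM.NA
import Pool.Agent.helper16.SYM.SMA
import Pool.Agent.helper16.SYM.SML
import Pool.Agent.helper17.SYM.FRD
import Pool.Agent.helper2.SYM.IV2
import Pool.Agent.helper2.SYM.JL
import Pool.Agent.helper22.SYM.F12
import Pool.Agent.helper24.SYM.CMN
import Pool.Agent.helper27.SYM.FON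
import Pool.Agent.helper3.SYM.CNX
import Pool.Agent.helper3.SYM.LNK3
import Pool.Agent.helper3.SYM.SC1
import Pool.Agent.helper31.SYM.BG1
import Pool.Agent.helper31.SYM.EV3
import Pool.Agent.helper31.SYM.FXC
import Pool.Agent.helper32.SYM.RES
import Pool.Agent.helper34.SYM.EQP
import Pool.Agent.helper40.SYM.ZPF
import Pool.Agent.helper41.SYM.F14
import Pool.Agent.helper45.SYM.IV0
import Pool.Agent.helper45.SYM.WT
import Pool.Agent.helper47.SYM.QUO
import Pool.Agent.helper47.SYM.TRI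
import Pool.Agent.helper47.SYM.V2
import Pool.Agent.helper5.SYM.ADM
import Pool.Agent.helper5.SYM.EV42
import Pool.Agent.helper5.SYM.EVF2
import Pool.Agent.helper53.SYM.CJI
import Pool.Agent.helper53.SYM.OR4
import Pool.Agent.helper54.SYM.BIJ
import Pool.Agent.helper54.SYM.IN
import Pool.Agent.helper6.SYM.DHE
import Pool.Agent.helper6.SYM.GPL
import Pool.Agent.helper6.SYM.LBF
import Pool.Agent.helper60.SYM.L6
import Pool.Agent.helper60.SYM.LB0
import Pool.Agent.helper60.SYM.LNK1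
import Pool.Agent.helper63.SYM.DH
import Pool.Agent.helper63.SYM.EVG
import Pool.Agent.helper66.SYM.A1C
import Pool.Agent.helper71.SYM.S60
import Pool.Agent.helper72.SYM.EQA
import Pool.Agent.helper73.SYM.NB4
import Pool.Agent.helper73.SYM.TW4
import Pool.Agent.helper74.SYM.L4
import Pool.Agent.helper74.SYM.YF1
import Pool.Agent.helper75.SYM.IV1
import Pool.Agent.helper75.SYM.L2
import Pool.Agent.helper76.SYM.PS4
import Pool.Agent.helper77.SYM.DS
import Pool.Agent.helper77.SYM.FRE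
import Pool.Agent.helper79.SYM.SC0
import Pool.Agent.helper8.SYM.FAD
import Pool.Agent.helper8.SYM.NB1
import Pool.Agent.helper82.SYM.PRT
import Pool.Agent.helper83.SYM.EVB
import Pool.Agent.helper83.SYM.TRP
import Pool.Agent.helper84.SYM.N31
import Pool.Agent.helper84.SYM.SPL
import Pool.Agent.helper89.SYM.SAS
import Pool.Agent.helper92.SYM.PSI
import Pool.Agent.helper93.SYM.LBA
import Pool.Agent.helper97.SYM.CNT

/-!
# Project sy: assembly
-/

set_option autoImplicit false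

namespace Pool.Agent.SYM
open Finset CT

theorem fWT : WT_stmt := WT
theorem fJV : JV_stmt := JV
theorem fJL : JL_stmt := JL fWT
theorem fSMA : SMA_stmt := SMA fJV
theorem fSML : SML_stmt := SML fSMA
theorem fLBA : LBA_stmt := LBA fJV fJL fSMA
theorem fLBF : LBF_stmt := LBF
theorem fSPL : SPL_stmt := SPL
theorem fRES : RES_stmt := RES fLBF
theorem fNA : NA_stmt := NA
theorem fNLC : NLC_stmt := NLC
theorem fCMN : CMN_stmt := CMN
theorem fIN : IN_stmt := IN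
theorem fDS : DS_stmt := DS fIN
theorem fV2 : V2_stmt := V2
theorem fTRI : TRI_stmt := TRI fDS fV2
theorem fL2 : L2_stmt := L2 fNA fNLC fIN
theorem fL4 : L4_stmt := L4 fNA fNLC fCMN fIN fDS
theorem fL6 : L6_stmt := L6 fNA fNLC fCMN fIN fDS fTRI
theorem fS60 : S60_stmt := S60 fNLC fL6
theorem fFAD : FAD_stmt := FAD
theorem fFON : FON_stmt := FON
theorem fF14 : F14_stmt := F14 fFAD fFON fL6
theorem fF12 : F12_stmt := F12 fFAD fFON fL4
theorem fSAS : SAS_stmt := SAS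
theorem fSC0 : SC0_stmt := SC0 fWT fSMA
theorem fSC1 : SC1_stmt := SC1 fWT fSMA fSC0
theorem fPSI : PSI_stmt := PSI fWT fJV fJL
theorem fPS4 : PS4_stmt := PS4 fWT fJV fJL
theorem fPAR : PAR_stmt := PAR fWT
theorem fEVB : EVB_stmt := EVB fSMA fPSI
theorem fEV3 : EV3_stmt := EV3 fWT fSMA fSC0 fSC1 fNLC fS60 fF14 fF12 fEVB
theorem fEVF2 : EVF2_stmt := EVF2 fSC0 fL4 fEVB
theorem fEVG : EVG_stmt := EVG fSC0 fL2 fEVB
theorem fEV42 : EV42_stmt := EV42 fWT fSMA fSC1 fNLC fF12 fL4 fPS4 fPAR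
theorem fQUO : QUO_stmt := QUO
theorem fFRD : FRD_stmt := FRD
theorem fADM : ADM_stmt := ADM
theorem fBIJ : BIJ_stmt := BIJ fFRD
theorem fGPL : GPL_stmt := GPL fFRD
theorem fGPA : GPA_stmt := GPA fLBF fLBA fSAS fFRD fADM fBIJ fGPL
theorem fZPF : ZPF_stmt := ZPF
theorem fN31 : N31_stmt := N31 fZPF
theorem fA1C : A1C_stmt := A1C fZPF
theorem fLB0 : LB0_stmt := LB0 fLBA
theorem fTRP : TRP_stmt := TRP fLBF fLB0
theorem fLNK3 : LNK3_stmt := LNK3 fN31 fA1C fTRP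
theorem fLNK1 : LNK1_stmt := LNK1 fN31 fTRP
theorem fCNX : CNX_stmt := CNX
theorem fCJI : CJI_stmt := CJI
theorem fEQP : EQP_stmt := EQP fCJI
theorem fEQA : EQA_stmt := EQA fCJI fEQP
theorem fPRT : PRT_stmt := PRT
theorem fNB1 : NB1_stmt := NB1
theorem fYF1 : YF1_stmt := YF1
theorem fCNT : CNT_stmt := CNT
theorem fBG1 : BG1_stmt := BG1 fNB1 fFRD fQUO fADM fGPA fYF1 fCNT
theorem fIV0 : IV0_stmt := IV0 fEQA fYF1 fBG1 fEVB fEV3
theorem fIV1 : IV1_stmt := IV1 fEQA fPRT fSPL fRES fYF1 fBG1 fEVF2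
theorem fIV2 : IV2_stmt := IV2 fLNK1 fEQA fPRT fSPL fRES fYF1 fBG1 fEVG
theorem fNB4 : NB4_stmt := NB4
theorem fTW4 : TW4_stmt := TW4
theorem fOR4 : OR4_stmt := OR4 fNB4 fFRD fQUO fADM fGPA fLNK1 fEQA fEV42 fTW4
theorem fFRE : FRE_stmt := FRE
theorem fDHE : DHE_stmt := DHE
theorem fFXC : FXC_stmt := FXC fCJI fEQP
theorem fDH : DH_stmt := DH fFXC fFRE fDHE

theorem fFIN {V : Type} [Fintype V] [DecidableEq V] (G : SimpleGraph V) (hG : FourRegular G)
    (hn : 7 ≤ Fintype.card V) (hv : ∃ v, ¬ C2Is (decompletion G v) (ZMod 2) 0) :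
    (∀ σ : G ≃g G, Invol σ → nfx σ ≤ 2 ∧ nin σ ≤ 2 ∧
      (∀ u w, G.Adj u w → ¬ (σ u = u ∧ σ w = w)) ∧ ¬ (nfx σ = 1 ∧ nin σ = 0)) ∧
    (∀ v, ¬ 4 ∣ Nat.card {σ : G ≃g G // σ v = v}) ∧
    ∀ P : Subgroup (G ≃g G), IsPGroup 2 P →
      ∃ k, 0 < k ∧ ∃ f : P →* DihedralGroup k, Function.Injective f :=
  FIN fLNK3 fCNX fIV0 fIV1 fIV2 fFRE fOR4 fDH G hG hn hv

end Pool.Agent.SYM
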