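import Pool.Agent.helper5.SYM.Defs

/-!
# Project sy (MP_45d809_mp): symmetries of a counterexample. Part A: matchings, labelings, parities

THEOREM (project). Let `G` be a 4-regular graph with at least 7 vertices whose invariant `c_2` at
`q = 2` is not 0. Then every involution of `G` fixes at most 2 vertices, inverts at most 2 edges,
fixes no edge (and does not fix exactly one vertex and no edge); no vertex stabiliser is transitive
on the 4 neighbours; every 2-group of automorphisms embeds in a dihedral group.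

Everything in this file is about matchings `e` on `W × Fin 4` (see Defs.lean of helper56/CT and
Defs.lean here). PROVED lemmas you can use: `CT.join_act`, `join_invol`, `join_symm`, `lp_symm`,
`join_comm`, `lp_comm`, `join_chain`, `join_left`, `join_right` (helper56/CT/J1.lean),
`CT.JZ1_sm`, `JZ1_pr`, `JZ1_ne` (helper89/CT/JZ1.lean), `CT.JZ2_sm`, `JZ2_pr` (JZ2.lean; `JZ2_sm`:
`sm e u t` is an involution and keeps the other active darts active).
-/

set_option autoImplicit false

namespace Pool.Agent.SYM
open Finset CT Polynomial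

/-! ## A. Labelings -/

/-- WT: functions invariant under the translation by `h`.
Proof: `f` is a function on the quotient `A ⧸ AddSubgroup.zmultiples h`, which has
`Nat.card A / addOrderOf h` elements (`AddSubgroup.card_eq_card_quotient_mul_card_addSubgroup`,
`Nat.card_zmultiples`). -/
def WT_stmt : Prop :=
  ∀ (A : Type) [AddCommGroup A] [Finite A] (h : A),
    Nat.card {f : A → Bool // ∀ g, f (g + h) = f g} = 2 ^ wA h ∧ 1 ≤ wA h

/-- JV: joining keeps voltages. Proof: cases of `join`, `jv`. -/
def JV_stmt : Prop :=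
  ∀ (D A : Type) [DecidableEq D] [AddCommGroup A] (e : D → D) (α : D → A) (x y : D) (β : A),
    (∀ d, e (e d) = d) → Vol e α → x ≠ y → e x ≠ x → e y ≠ y →
    Vol (join e x y) (jv e α x y β)

/-- JL: labelings after a join; `K` is a condition which does not involve the labels of `x`, `y`.
Proof. Case `e x = y`: then `Lab e α Φ` at `x`, `y` says `Φ y (g + α x) = Φ x g` (the condition at
`y` is the same as `α y = -α x`). With `Φ y (g + β) = Φ x g` this means: `Φ x g = Φ y (g + α x)`
and `Φ y (g + (α x - β)) = Φ y g`. So the labelings on the left are pairs (restriction to the other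
darts, i.e. a labeling on the right, where `Φ x = Φ y = false`; a function `Φ y` invariant under
`α x - β`): WT. Case `e x ≠ y`: `lv = 0`, and `Φ ↦` (`Φ` with `x`, `y` replaced by `false`) is a
bijection: for `z` with `e z = x`: `Φ (e y) (g + (α z + β + α y)) = Φ y (g + α z + β) =
Φ x (g + α z) = Φ z g`, for `e z = y`: `Φ (e x) (g + α z - β + α x) = Φ x (g + α z - β) =
Φ y (g + α z) = Φ z g`; conversely `Φ x`, `Φ y` are recovered from `Φ (e x)`, `Φ (e y)` by
`Φ x g = Φ (e x) (g + α x)`. -/
def JL_stmt : Prop :=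
  ∀ (D A : Type) [Fintype D] [DecidableEq D] [AddCommGroup A] [Finite A] (e : D → D) (α : D → A)
    (x y : D) (β : A) (K : (D → A → Bool) → Prop),
    (∀ d, e (e d) = d) → Vol e α → x ≠ y → e x ≠ x → e y ≠ y →
    (∀ Φ Φ' : D → A → Bool, (∀ z, z ≠ x → z ≠ y → Φ z = Φ' z) → (K Φ ↔ K Φ')) →
    Nat.card {Φ : D → A → Bool // Lab e α Φ ∧ K Φ ∧ ∀ g, Φ y (g + β) = Φ x g} =
      2 ^ lv e α x y β *
        Nat.card {Φ : D → A → Bool // Lab (join e x y) (jv e α x y β) Φ ∧ K Φ}

/-- SMA: smoothing a vertex keeps activity and voltages. (`join_act` twice, JV twice.) -/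
def SMA_stmt : Prop :=
  ∀ (W A : Type) [DecidableEq W] [AddCommGroup A] (S : Finset W) (E : Finset (W × Fin 4))
    (e : W × Fin 4 → W × Fin 4) (α : W × Fin 4 → A) (u : W) (t : Fin 3),
    u ∉ S → (∀ x ∈ E, x.1 ≠ u) → Act (dts (insert u S) ∪ E) e → Vol e α →
    Act (dts S ∪ E) (sm e u t) ∧ Vol (sm e u t) (smv e α u t)

/-- SML: the same for a list (by induction from SMA). -/
def SML_stmt : Prop :=
  ∀ (W A : Type) [DecidableEq W] [AddCommGroup A] (L : List W) (E : Finset (W × Fin 4))
    (e : W × Fin 4 → W × Fin 4) (α : W × Fin 4 → A) (t : W → Fin 3),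
    L.Nodup → (∀ x ∈ E, x.1 ∉ L) → Act (dts L.toFinset ∪ E) e → Vol e α →
    Act E (fe L e t) ∧ Vol (fe L e t) (fa L e α t)

/-- LBA: labelings after smoothing the vertices of a list.
Proof: induction on `L`; `Φ (u, pa t i) = Φ (u, i)` for all `i` is the same as
`Φ (u, (pr t).2.1) = Φ (u, (pr t).1)` and `Φ (u, (pr t).2.2.2) = Φ (u, (pr t).2.2.1)`; apply JL
twice (with `β = 0`; the condition `K` of JL contains everything else, for the second application
also the conditions at the other vertices of `L`); SMA gives the hypotheses for the tail. -/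
def LBA_stmt : Prop :=
  ∀ (W A : Type) [Fintype W] [DecidableEq W] [AddCommGroup A] [Finite A] (L : List W)
    (E : Finset (W × Fin 4)) (e : W × Fin 4 → W × Fin 4) (α : W × Fin 4 → A) (t : W → Fin 3)
    (K : (W × Fin 4 → A → Bool) → Prop),
    L.Nodup → (∀ x ∈ E, x.1 ∉ L) → Act (dts L.toFinset ∪ E) e → Vol e α →
    (∀ Φ Φ' : W × Fin 4 → A → Bool, (∀ z : W × Fin 4, z.1 ∉ L → Φ z = Φ' z) → (K Φ ↔ K Φ')) →
    Nat.card {Φ : W × Fin 4 → A → Bool // Lab e α Φ ∧ K Φ ∧
        ∀ u ∈ L, ∀ i, Φ (u, pa (t u) i) = Φ (u, i)} =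
      2 ^ lpsv L e α t *
        Nat.card {Φ : W × Fin 4 → A → Bool // Lab (fe L e t) (fa L e α t) Φ ∧ K Φ}

/-- LBF: invariant functions which vanish on `Q`.
Proof: functions constant on the classes of `Cir s τ` are functions on `Cir s τ` (`Quot.lift`);
those vanishing on `Q` are the functions vanishing on the classes of the elements of `Q`, i.e.
arbitrary functions on the subtype of the other classes. (`Cir s τ` is finite.) -/
def LBF_stmt : Prop :=
  ∀ (D : Type) [Finite D] (s τ : D → D) (Q : D → Prop),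
    Nat.card {φ : D → Bool // (∀ d, φ (s d) = φ d) ∧ (∀ d, φ (τ d) = φ d) ∧
      ∀ d, Q d → φ d = false} = 2 ^ nav s τ Q

/-- SPL: splitting the circuits by an invariant property `Q0`. Proof: `Q0` is constant on the
classes; a circuit avoiding `Q` avoids either `Q0` or its complement, not both (it contains a
dart). -/
def SPL_stmt : Prop :=
  ∀ (D : Type) [Finite D] (s τ : D → D) (Q Q0 : D → Prop),
    (∀ d, Q0 (s d) ↔ Q0 d) → (∀ d, Q0 (τ d) ↔ Q0 d) →
    nav s τ Q = nav s τ (fun d => Q d ∨ Q0 d) + nav s τ (fun d => Q d ∨ ¬ Q0 d)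

/-- RES: the number of circuits avoiding `Q` depends only on `τ` outside `Q`.
Proof: the sets of functions in LBF are equal: let `φ` vanish on `Q` and be invariant under `τ`. If
`¬ Q d` then `φ (τ' d) = φ (τ d) = φ d`. If `Q d`, `d' = τ' d`: if `Q d'` both values are `false`,
otherwise `τ d' = τ' d' = d`, so `φ d' = φ (τ d') = φ d`. (`Nat.pow_right_injective`.) -/
def RES_stmt : Prop :=
  ∀ (D : Type) [Finite D] (s τ τ' : D → D) (Q : D → Prop),
    (∀ d, τ (τ d) = d) → (∀ d, τ' (τ' d) = d) → (∀ d, ¬ Q d → τ d = τ' d) →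
    nav s τ Q = nav s τ' Q

/-! ## B. Parities of the numbers of smoothings without loops -/

/-- NA: sums over a concatenation. Induction on `L₁`. -/
def NA_stmt : Prop :=
  ∀ (W : Type) [DecidableEq W] (R : (W × Fin 4 → W × Fin 4) → ZMod 2) (L₁ L₂ : List W)
    (e : W × Fin 4 → W × Fin 4), NL R (L₁ ++ L₂) e = NL (NL R L₂) L₁ e

/-- NLC: only the values of `R` at the possible final matchings matter. Induction on `L`
(SMA or `join_act`). -/
def NLC_stmt : Prop :=
  ∀ (W : Type) [DecidableEq W] (R R' : (W × Fin 4 → W × Fin 4) → ZMod 2) (L : List W)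
    (E : Finset (W × Fin 4)) (e : W × Fin 4 → W × Fin 4),
    L.Nodup → (∀ x ∈ E, x.1 ∉ L) → Act (dts L.toFinset ∪ E) e →
    (∀ e', Act E e' → R e' = R' e') → NL R L e = NL R' L e

/-- CMN: the order of the vertices does not matter. As JZ1, JZ2 of helper89/CT: `JZ1_sm` gives
`sm (sm e u t) w t' = sm (sm e w t') u t` and the sum of the two `ls`, so one side has no loops iff
the other has none. -/
def CMN_stmt : Prop :=
  ∀ (W : Type) [DecidableEq W] (R : (W × Fin 4 → W × Fin 4) → ZMod 2) (L L' : List W)
    (e : W × Fin 4 → W × Fin 4), L.Perm L' → L.Nodup → (∀ d, e (e d) = d) →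
    (∀ u ∈ L, ∀ i, e (u, i) ≠ (u, i)) → NL R L e = NL R L' e

/-- IN: a strand with both ends at `u`.
Proof: let `k`, `l` be the other two indices. The pairing containing `{i, j}` has a loop. The other
two pairings `{i,k},{j,l}` and `{i,l},{j,k}` give the same matching and the same number of loops:
`join_chain` with `p = (u,i)`, `q = (u,j)`: both are `join (join e p q) (u,k) (u,l)`
(`join_symm`). So the sum is `0 + v + v = 0`. -/
def IN_stmt : Prop :=
  ∀ (W : Type) [DecidableEq W] (R : (W × Fin 4 → W × Fin 4) → ZMod 2) (u : W) (L : List W)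
    (e : W × Fin 4 → W × Fin 4) (i j : Fin 4),
    (∀ d, e (e d) = d) → (∀ k, e (u, k) ≠ (u, k)) → i ≠ j → e (u, i) = (u, j) →
    NL R (u :: L) e = 0

/-- DS: two strands between `z` and `u`.
Proof: let `p = (z,i)`, `q = (z,i')`, `p' = (u,j)`, `q' = (u,j')`, `a`, `b` the other darts of `z`.
The pairing `{p,q},{a,b}` at `z`: if there is no loop, the new matching joins `p'` and `q'`, so IN
gives 0. The pairings `{p,a},{q,b}` and `{p,b},{q,a}` have no loops (`e p = p'`, `e q = q'`), and
the two new matchings `e1`, `e2` differ by the exchange of `p'` and `q'`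
(`e2 = swap p' q' ∘ e1 ∘ swap p' q'`; `e1 p' = e a` or `q'` or .. ). Smoothing `e2` at `u` along
`t'` is smoothing `e1` along the pairing `t''` obtained from `t'` by exchanging `j`, `j'`: same
matching, same number of loops (`p'`, `q'` are inactive afterwards). So the two sums over `t'` are
equal and cancel in `ZMod 2`. -/
def DS_stmt : Prop :=
  ∀ (W : Type) [DecidableEq W] (R : (W × Fin 4 → W × Fin 4) → ZMod 2) (z u : W) (L : List W)
    (e : W × Fin 4 → W × Fin 4) (i i' j j' : Fin 4),
    z ≠ u → (∀ d, e (e d) = d) → (∀ k, e (z, k) ≠ (z, k)) → (∀ k, e (u, k) ≠ (u, k)) →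
    i ≠ i' → e (z, i) = (u, j) → e (z, i') = (u, j') → NL R (z :: u :: L) e = 0

/-- V2: two vertices joined by exactly one strand, and 6 ends.
Proof: there are no other strands between `z`, `u`, so the three other darts of `z` go to ends
`x1, x2, x3`, those of `u` to ends `y1, y2, y3`, and these are all 6 ends. A pairing `t` at `z` joins
one `x a` to the strand `z u` and the other two to each other, similarly at `u` (`y b`): the result
matches `x a` with `y b`, the other two `x` and the other two `y`; no loops. Number of `(a, b)` such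
that `p` and `q` are matched: 3 if both are `x` (`a` is determined, `b` arbitrary) or both are `y`, 1
otherwise. In `ZMod 2` this is 1. -/
def V2_stmt : Prop :=
  ∀ (W : Type) [DecidableEq W] (z u : W) (E : Finset (W × Fin 4)) (e : W × Fin 4 → W × Fin 4)
    (p q : W × Fin 4) (i j : Fin 4),
    z ≠ u → E.card = 6 → (∀ x ∈ E, x.1 ≠ z ∧ x.1 ≠ u) → Act (dts {z, u} ∪ E) e →
    p ∈ E → q ∈ E → p ≠ q → e (z, i) = (u, j) → (∀ k, (e (z, k)).1 ≠ z) →
    (∀ k, (e (u, k)).1 ≠ u) → (∀ k, k ≠ i → (e (z, k)).1 ≠ u) →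
    NL (fun e' => if e' p = q then 1 else 0) [z, u] e = 1

/-- TRI: three vertices, 6 ends, no strand inside a vertex, no double strands.
Proof: every vertex has at most two darts going to the other two vertices, so at least two going to
ends; as there are 6 ends, exactly two each, and every two of the vertices are joined by exactly one
strand. Expand at `y`, whose darts go to `z`, `u` and the ends `r`, `r'`. Pairing
`{z,u},{r,r'}`: there are two strands between `z` and `u`: DS gives 0. The other two pairings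
(`{z,r},{u,r'}` and `{z,r'},{u,r}`): no loops, `z` and `u` are joined by exactly one strand, and the
6 ends are still the same: V2 gives 1 each. `0 + 1 + 1 = 0`. -/
def TRI_stmt : Prop :=
  ∀ (W : Type) [DecidableEq W] (y z u : W) (E : Finset (W × Fin 4)) (e : W × Fin 4 → W × Fin 4)
    (p q : W × Fin 4),
    y ≠ z → y ≠ u → z ≠ u → E.card = 6 → (∀ x ∈ E, x.1 ≠ y ∧ x.1 ≠ z ∧ x.1 ≠ u) →
    Act (dts {y, z, u} ∪ E) e → p ∈ E → q ∈ E → p ≠ q →
    (∀ v ∈ ({y, z, u} : Finset W), ∀ k, (e (v, k)).1 ≠ v) →
    (∀ v ∈ ({y, z, u} : Finset W), ∀ w ∈ ({y, z, u} : Finset W), ∀ k l,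
      (e (v, k)).1 = w → (e (v, l)).1 = w → k = l) →
    NL (fun e' => if e' p = q then 1 else 0) [y, z, u] e = 0

/-- L2: 2 ends and at least one vertex.
Proof: `L = L' ++ [u]` (`List.eq_nil_or_concat`), NA, and by NLC (with the ends
`dts {u} ∪ E`) it suffices that `NL R [u] e' = 0` for every `e'` with `Act (dts {u} ∪ E) e'`: the
four darts at `u` cannot all be matched with the two ends, so there is a strand from `(u,i)` to
`(u,j)`, IN. -/
def L2_stmt : Prop :=
  ∀ (W : Type) [DecidableEq W] (R : (W × Fin 4 → W × Fin 4) → ZMod 2) (L : List W)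
    (E : Finset (W × Fin 4)) (e : W × Fin 4 → W × Fin 4),
    L.Nodup → (∀ x ∈ E, x.1 ∉ L) → E.card = 2 → 1 ≤ L.length → Act (dts L.toFinset ∪ E) e →
    NL R L e = 0

/-- L4: 4 ends and at least two vertices.
Proof: as L2, with the last two vertices `z`, `u`: `NL R [z, u] e' = 0` for `e'` with
`Act (dts {z, u} ∪ E) e'`, `|E| = 4`. If there is a strand inside `z`: IN; inside `u`: CMN and IN.
If there are two strands between `z` and `u`: DS. Otherwise `z` and `u` have at least 3 darts each
which go to ends: at least 6 ends, contradiction. -/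
def L4_stmt : Prop :=
  ∀ (W : Type) [DecidableEq W] (R : (W × Fin 4 → W × Fin 4) → ZMod 2) (L : List W)
    (E : Finset (W × Fin 4)) (e : W × Fin 4 → W × Fin 4),
    L.Nodup → (∀ x ∈ E, x.1 ∉ L) → E.card = 4 → 2 ≤ L.length → Act (dts L.toFinset ∪ E) e →
    NL R L e = 0

/-- L6: 6 ends and at least three vertices; `R e' = [e' p = q]` for two ends `p ≠ q`.
Proof: as L4 with the last three vertices. A strand inside a vertex: IN (bring the vertex to the
front with CMN); two strands between two of the vertices: bring them to the front, DS; otherwise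
TRI. -/
def L6_stmt : Prop :=
  ∀ (W : Type) [DecidableEq W] (L : List W) (E : Finset (W × Fin 4))
    (e : W × Fin 4 → W × Fin 4) (p q : W × Fin 4),
    L.Nodup → (∀ x ∈ E, x.1 ∉ L) → E.card = 6 → 3 ≤ L.length → Act (dts L.toFinset ∪ E) e →
    p ∈ E → q ∈ E → p ≠ q → NL (fun e' => if e' p = q then 1 else 0) L e = 0

/-- S60: the number of smoothings without loops such that no vertex of `J` is joined to itself is
even, for `|J| = 3, 1, 0` and 6 ends (`C` = the other ends).
Proof. (1) `NL (fun _ => 1) L e = 0`: fix an end `p`; for a final matching `e'` (`Act E e'`) exactly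
one `q ∈ E`, `q ≠ p` has `e' p = q`: `1 = ∑ q ∈ E.erase p, [e' p = q]`; `NL` is additive in `R`
(induction on the list), NLC, L6. (2) `|J| = 0`: `so = 0` always, (1). (3) `J = {j}`:
`[so = 0] = 1 - [e' (j,0) = (j,1)]`: (1) and L6. (4) `|J| = 3` (then `C = ∅`, the ends are the three
pairs): `so e' ∈ {0, 1, 3}` (if two of the vertices are joined to themselves, so is the third,
because `e'` is a fixed point free involution of the 6 ends), so
`[so = 0] = 1 + ∑ j ∈ J, [e' (j,0) = (j,1)]` in `ZMod 2`: (1) and L6. -/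
def S60_stmt : Prop :=
  ∀ (W : Type) [DecidableEq W] (L : List W) (C : Finset (W × Fin 4)) (J : Finset W)
    (e : W × Fin 4 → W × Fin 4),
    L.Nodup → (∀ c ∈ C, c.1 ∉ L) → (∀ j ∈ J, j ∉ L) → Disjoint C (jd J) →
    (C ∪ jd J).card = 6 → J.card ≠ 2 → 3 ≤ L.length → Act (dts L.toFinset ∪ (C ∪ jd J)) e →
    NL (fun e' => if so J e' = 0 then 1 else 0) L e = 0

/-! ## C. Exactly one loop, counted with its voltage -/

/-- FAD: additivity. Induction on `L` for all `e`: `jv` (with `β = 0`), `smv`, `vl` are additive in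
`α`. -/
def FAD_stmt : Prop :=
  ∀ (W : Type) [DecidableEq W] (L : List W) (e : W × Fin 4 → W × Fin 4)
    (α β : W × Fin 4 → ZMod 2), F1 L e (fun d => α d + β d) = F1 L e α + F1 L e β

/-- Cut the strand of `x` and attach the new ends `p` (to `x`) and `q` (to `e x`). -/
def cut {D : Type} [DecidableEq D] (e : D → D) (x p q : D) : D → D := fun d =>
  if d = x then p else if d = p then x else if d = e x then q else if d = q then e x else e d

/-- FON: the voltage is 1 on exactly one strand `{x, e x}`: the smoothings with exactly one loop,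
which passes through this strand, correspond to the smoothings without loops of the cut matching
which join the new ends `p`, `q`.
Proof: induction on `L` for all `e`, `x` (`p`, `q` fixed). Put `c = cut e x p q`, `α` = the
indicator of `{x, e x}`. One join of `a ≠ b` (active, not `p`, `q`):
(i) `{a, b} = {x, e x}`: `lp e a b = 1`, `lp c a b = 0` and `join c a b` is `join e a b` together
with the strand `p q`;
(ii) `a ∈ {x, e x}`, `b` not (or `b` in, `a` not): `lp = 0` for both; with `y` the other end of the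
marked strand the new marked strand is `{e b, y}` (it may be that `e b` ..: `e b ≠ y`): `join c a b =
cut (join e a b) x' p q` with `x' = e b` if `a = x` and `x' = x` if `a = e x`, and
`jv e α a b 0` is the indicator of `{x', join e a b x'}`;
(iii) `a, b ∉ {x, e x}`: `lp e a b = lp c a b`, `join c a b = cut (join e a b) x p q`,
`jv e α a b 0 = α`.
So for the smoothing of `u` along `t`: either the marked strand survives: `ls e u t = ls c u t`,
`vl e α u t = 0`, `sm c u t = cut (sm e u t) x' p q`, `smv e α u t` = indicator, and the terms agree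
by induction (if `ls = 1` the term of `F1` is `0 * _`); or it becomes a loop:
`ls e u t = ls c u t + 1`; if `ls c u t = 0` the term of `F1` is `1 * NL 1 L (sm e u t)`, and
`sm c u t` is `sm e u t` with the additional strand `p q`, for which the condition `e' p = q`
always holds and the number of smoothings without loops is the same (separate easy induction: a
strand `p q` with `p.1, q.1 ∉ L` does not matter); if `ls c u t ≥ 1` both terms are 0. -/
def FON_stmt : Prop :=
  ∀ (W : Type) [DecidableEq W] (L : List W) (e : W × Fin 4 → W × Fin 4) (x p q : W × Fin 4),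
    L.Nodup → (∀ d, e (e d) = d) → (∀ u ∈ L, ∀ i, e (u, i) ≠ (u, i)) → e x ≠ x →
    e p = p → e q = q → p ≠ q → p.1 ∉ L → q.1 ∉ L →
    F1 L e (fun d => if d = x ∨ d = e x then 1 else 0) =
      NL (fun e' => if e' p = q then 1 else 0) L (cut e x p q)

/-- F14: 4 ends and at least 3 vertices.
Proof: `α` vanishes on inactive darts and `α (e d) = α d`. Induction on the number of active darts
with `α d = 1` (strong). If there is none, `α = 0` and `F1 L e 0 = 0` (FAD with `0 + 0`). Otherwise
let `α x = 1`, `β` = indicator of `{x, e x}`: `F1 L e β = 0` by FON and L6 for the ends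
`insert p (insert q E)` (6 ends, `Act (dts L ∪ ..) (cut e x p q)`), and `α + β` has fewer ones;
`F1 L e α = F1 L e (α + β) + F1 L e β`. -/
def F14_stmt : Prop :=
  ∀ (W : Type) [DecidableEq W] (L : List W) (E : Finset (W × Fin 4))
    (e : W × Fin 4 → W × Fin 4) (α : W × Fin 4 → ZMod 2) (p q : W × Fin 4),
    L.Nodup → (∀ x ∈ E, x.1 ∉ L) → E.card = 4 → 3 ≤ L.length → Act (dts L.toFinset ∪ E) e →
    Vol e α → p.1 ∉ L → q.1 ∉ L → p ∉ E → q ∉ E → p ≠ q → F1 L e α = 0

/-- F12: 2 ends and at least 2 vertices: the same with L4. -/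
def F12_stmt : Prop :=
  ∀ (W : Type) [DecidableEq W] (L : List W) (E : Finset (W × Fin 4))
    (e : W × Fin 4 → W × Fin 4) (α : W × Fin 4 → ZMod 2) (p q : W × Fin 4),
    L.Nodup → (∀ x ∈ E, x.1 ∉ L) → E.card = 2 → 2 ≤ L.length → Act (dts L.toFinset ∪ E) e →
    Vol e α → p.1 ∉ L → q.1 ∉ L → p ∉ E → q ∉ E → p ≠ q → F1 L e α = 0

/-! ## D. The generating polynomial -/

/-- SAS: `SA` as a sum over functions. Induction on `L` for all `e`, `α`: for `u ∉ L` the functions
`t ∈ pf (insert u L)` are the functions `Function.update t' u s` with `t' ∈ pf L`, `s : Fin 3`, and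
`lpsv L`, `fe L`, `fa L` depend only on the values of `t` on `L`. -/
def SAS_stmt : Prop :=
  ∀ (W A : Type) [Fintype W] [DecidableEq W] [AddCommGroup A]
    (Ω : (W × Fin 4 → W × Fin 4) → (W × Fin 4 → A) → (ZMod 2)[X]) (L : List W)
    (e : W × Fin 4 → W × Fin 4) (α : W × Fin 4 → A), L.Nodup →
    SA Ω L e α = ∑ t ∈ pf L.toFinset, X ^ lpsv L e α t * Ω (fe L e t) (fa L e α t)

/-- SC0: the constant coefficient.
Proof: induction on `L` for all `e`, `α` (SMA). `(X ^ k * f).coeff 0` is `f.coeff 0` for `k = 0` and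
0 for `k ≥ 1`; `lsv e α u t = 0 ↔ ls e u t = 0` as `1 ≤ wA h` (WT). -/
def SC0_stmt : Prop :=
  ∀ (W A : Type) [DecidableEq W] [AddCommGroup A] [Finite A]
    (Ω : (W × Fin 4 → W × Fin 4) → (W × Fin 4 → A) → (ZMod 2)[X])
    (R : (W × Fin 4 → W × Fin 4) → ZMod 2) (L : List W) (E : Finset (W × Fin 4))
    (e : W × Fin 4 → W × Fin 4) (α : W × Fin 4 → A),
    L.Nodup → (∀ x ∈ E, x.1 ∉ L) → Act (dts L.toFinset ∪ E) e → Vol e α →
    (∀ e' α', Act E e' → Vol e' α' → (Ω e' α').coeff 0 = R e') →
    (SA Ω L e α).coeff 0 = NL R L e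

/-- SC1: the coefficient of `X`. `par` is a homomorphism such that a loop of voltage `h` has
exactly one circuit above it iff `par h = 1`.
Proof: induction on `L` for all `e`, `α` (SMA). Term `t`: if `ls e u t = 0` then `lsv = 0` and the
induction hypothesis applies (`smv` commutes with `par`). If `ls e u t = 1` with the voltage `h` of
the loop: `lsv = wA h ≥ 1` (WT), `vl e (par ∘ α) u t = par h`; if `par h = 1`, `lsv = 1` and the
contribution is `(SA Ω L ..).coeff 0 = NL (fun _ => r0) L .. = r0 * NL (fun _ => 1) L ..` (SC0);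
otherwise `lsv ≥ 2`, contribution 0, and `par h = 0` (`ZMod 2`). If `ls e u t = 2`: `lsv ≥ 2`. -/
def SC1_stmt : Prop :=
  ∀ (W A : Type) [DecidableEq W] [AddCommGroup A] [Finite A]
    (Ω : (W × Fin 4 → W × Fin 4) → (W × Fin 4 → A) → (ZMod 2)[X]) (r0 : ZMod 2)
    (R : (W × Fin 4 → W × Fin 4) → ZMod 2) (par : A →+ ZMod 2) (L : List W)
    (E : Finset (W × Fin 4)) (e : W × Fin 4 → W × Fin 4) (α : W × Fin 4 → A),
    (∀ h : A, wA h = 1 ↔ par h = 1) →
    L.Nodup → (∀ x ∈ E, x.1 ∉ L) → Act (dts L.toFinset ∪ E) e → Vol e α →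
    (∀ e' α', Act E e' → Vol e' α' → (Ω e' α').coeff 0 = r0 ∧ (Ω e' α').coeff 1 = R e') →
    (SA Ω L e α).coeff 1 = r0 * F1 L e (fun d => par (α d)) + NL R L e

/-! ## E. The final value and the evaluations -/

/-- PSI: the final value for `A = ZMod 2` (labels 1, no vertices `Z`).
Proof. First replace `K`: `pz K` has one element (`O2 (ZMod 2) = {1}`), and its conditions are those
of dead ends `(k, 0)`; so it suffices to treat `K = ∅` with `C ∪ K ×ˢ {0}` instead of `C`.
Induction on `J` for all `C`, `e`, `α`. Base: all ends are dead ends: a labeling is given by one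
bit for each strand `{c, e c}` (`Φ c` is constant, `Φ (e c) (g + α c) = Φ c g`), other darts have
label `false`; so there are `2 ^ (C.card / 2)` labelings. Step `j ∈ J`, `x = (j,0)`, `y = (j,1)`:
(a) `e x = y`, `β = α x`: the labels of `x`, `y` are independent of the others; `t j = 0`: `Φ x`
constant: factor 2; `t j = 1`: `Φ y = Φ x`, JL with `β = 0`: factor `2 ^ wA (α x)`; `t j = 2`: JL
with `β = 1`: factor `2 ^ wA (α x - 1)`; `wA 0 = 2`, `wA 1 = 1`; the sum of the three is
`X + X + X ^ 2 = X ^ 2` times the sum for `J.erase j` (matching with `x`, `y` removed, i.e.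
`join e x y`); `so` drops by 1. (b) `e x ≠ y`: `t j = 1`: JL with `β = 0` (no loop), `t j = 2`: JL
with `β = 1`: the same matching `join e x y` with other voltages; by induction both sums are equal
(the value does not depend on the voltages), they cancel. `t j = 0`: `x` and `y` become dead ends:
induction hypothesis with `C ∪ {x, y}`. (`Nat.log 2 (2 ^ a * b) = a + Nat.log 2 b` for `b ≠ 0`:
the zero labeling exists.) -/
def PSI_stmt : Prop :=
  ∀ (W : Type) [Fintype W] [DecidableEq W] (C : Finset (W × Fin 4)) (J K : Finset W)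
    (e : W × Fin 4 → W × Fin 4) (α : W × Fin 4 → ZMod 2),
    Disjoint J K → (∀ c ∈ C, c.1 ∉ J ∧ c.1 ∉ K) → Act (Ed C J K) e → Vol e α →
    Om C J K ∅ (fun _ => (1 : ZMod 2)) e α = X ^ (J.card + (C.card + K.card) / 2 + so J e)

/-- PS4: the final value for a group of order 4 and one vertex `w ∈ K` with label zero, modulo
`X ^ 2`.
Proof: induction on `J` for all `C`, `e`, `α`. Base `J = ∅`: for a strand `{x, e x}` not containing
`(w,0)` whose ends have the labels `g`, `h` of order 2 (for `K` the label is `ζ k`), the number of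
labelings of `x` is the number of functions invariant under `g` and `h` (`A` is commutative, so the
voltage does not matter): 2 if `g ≠ h` (they generate `A`), `2 ^ 2` if `g = h`: `X` or `X ^ 2`. The
strand of `(w,0)`: one labeling (zero), for all choices of `ζ` at its ends; the number of
choices is a power of `|O2 A|`, which is odd (1 or 3). So the value is
(odd) * product over the other strands; if there are no other strands (2 ends) it is 1 modulo 2; if
there is exactly one (4 ends) the constant coefficient is 0 and the coefficient of `X` depends only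
on the matching and the labels, not on `α`; if there are at least two, the value is divisible by
`X ^ 2`. Step `j ∈ J`, `x = (j,0)`, `y = (j,1)`, `g = γ (j,0)`: (a) `e x = y`: all three values of
`t j` give a multiple of the same polynomial (for `J.erase j`, `join e x y`) by `X ^ 2` (for
`t j = 0`: `Φ x` invariant under `g`: 2 bits), `X ^ wA (α x)`, `X ^ wA (α x - g)` (JL); `wA h = 1`
iff `h` has order 4, and `α x`, `α x - g` have both order 4 or none of them has; so modulo 2 the sum
is divisible by `X ^ 2`. (b) `e x ≠ y`: `t j = 1` and `t j = 2` are joins with voltages `0`, `g` (JL,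
no loop): same matching, by induction the coefficients of `1` and `X` do not depend on the voltages:
they cancel. `t j = 0`: induction hypothesis with `C ∪ {x, y}` (same ends; extend `γ`:
the label of `(j,1)` must be `g`, replace `γ` by `Function.update γ (j,1) g`). -/
def PS4_stmt : Prop :=
  ∀ (W A : Type) [Fintype W] [DecidableEq W] [AddCommGroup A] [Fintype A]
    (C : Finset (W × Fin 4)) (J K : Finset W) (w : W) (γ : W × Fin 4 → A)
    (e : W × Fin 4 → W × Fin 4) (α α' : W × Fin 4 → A),
    Nat.card A = 4 → Disjoint J K → (∀ c ∈ C, c.1 ∉ J ∧ c.1 ∉ K) → w ∈ K →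
    (∀ c ∈ C, γ c ∈ O2 A) → (∀ j ∈ J, γ (j, 0) ∈ O2 A) → Act (Ed C J K) e → Vol e α → Vol e α' →
    (Om C J K {w} γ e α).coeff 0 = (if (Ed C J K).card = 2 then 1 else 0) ∧
    ((Ed C J K).card ≠ 4 → (Om C J K {w} γ e α).coeff 1 = 0) ∧
    (Om C J K {w} γ e α).coeff 1 = (Om C J K {w} γ e α').coeff 1

/-- PAR: Proof: if `A` is cyclic, `A ≃+ ZMod 4`, take the reduction mod 2 (`wA h = 1` iff `h` has
order 4 iff `h` is odd); otherwise there is no element of order 4 (`addOrderOf h ∣ 4`), take
`par = 0`. -/
def PAR_stmt : Prop :=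
  ∀ (A : Type) [AddCommGroup A] [Finite A], Nat.card A = 4 →
    ∃ par : A →+ ZMod 2, ∀ h : A, wA h = 1 ↔ par h = 1

/-- The generating polynomial for `A = ZMod 2`. -/
noncomputable def B2 {W : Type} [Fintype W] [DecidableEq W] (L : List W)
    (C : Finset (W × Fin 4)) (J K : Finset W) (e : W × Fin 4 → W × Fin 4)
    (α : W × Fin 4 → ZMod 2) : (ZMod 2)[X] :=
  SA (Om C J K ∅ (fun _ => (1 : ZMod 2))) L e α

/-- EVB: by PSI, `B2 = X ^ k * SA (fun e' _ => X ^ so J e') L e α`, `k = |J| + (|C| + |K|) / 2`
(induction on `L` as for SC0 with the ends `Ed C J K`; SMA, PSI); and the number of active darts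
`4 |L| + |C| + 2 |J| + |K|` is even (`e` is a fixed point free involution on them), so `|C| + |K|`
is even. -/
def EVB_stmt : Prop :=
  ∀ (W : Type) [Fintype W] [DecidableEq W] (L : List W) (C : Finset (W × Fin 4))
    (J K : Finset W) (e : W × Fin 4 → W × Fin 4) (α : W × Fin 4 → ZMod 2), Adm L C J K e α →
    2 ∣ C.card + K.card ∧
    B2 L C J K e α =
      X ^ (J.card + (C.card + K.card) / 2) * SA (fun e' _ => X ^ so J e') L e α

/-- EV3: no fixed darts, the coefficient of `X ^ 3`.
Proof (EVB): `k ≥ 4`: 0. `k = 3`: the constant coefficient of `SA (fun e' _ => X ^ so J e')`, by SC0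
it is `NL (fun e' => [so J e' = 0]) L e = 0` by S60 (6 ends: `|C| + 2 |J| = 6`; `|J| ≤ 3`).
`J = ∅`, `|C| = 4`: `k = 2`, `so = 0`: coefficient 1 of `SA (fun _ _ => 1)`: SC1 with
`par = id` (`wA (0 : ZMod 2) = 2`, `wA 1 = 1`), `r0 = 1`, `R = 0`: `F1 L e α = 0` by F14 (`p`, `q` =
`(w,0)`, `(w,1)` for the spare `w`). `|J| = 1`, `C = ∅`: `k = 1`, the final matching joins the two
ends of `J`, so `so = 1`: coefficient 2 of `SA (fun _ _ => X)`; apply SC.. to
`SA (fun e' _ => X ^ so J e') = X * SA (fun _ _ => 1)` (NLC-type induction), coefficient 1 of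
`SA (fun _ _ => 1)` is `F1 L e α = 0` by F12. -/
def EV3_stmt : Prop :=
  ∀ (W : Type) [Fintype W] [DecidableEq W] (L : List W) (C : Finset (W × Fin 4))
    (J : Finset W) (e : W × Fin 4 → W × Fin 4) (α : W × Fin 4 → ZMod 2), Adm L C J ∅ e α →
    (4 ≤ J.card + C.card / 2 ∨ (J.card + C.card / 2 = 3 ∧ J.card ≠ 2 ∧ 3 ≤ L.length) ∨
      (J.card = 0 ∧ C.card = 4 ∧ 3 ≤ L.length) ∨ (J.card = 1 ∧ C.card = 0 ∧ 2 ≤ L.length)) →
    (B2 L C J ∅ e α).coeff 3 = 0

/-- EVF: at least three dead ends. Proof (EVB): `|C| + |K| ≥ 4` (even), so `k ≥ 2`, and `k ≥ 3`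
unless `J = ∅`, `|C| + |K| = 4`; then coefficient 2 is the constant coefficient of
`SA (fun _ _ => 1)`: SC0 and L4 (4 ends). -/
def EVF_stmt : Prop :=
  ∀ (W : Type) [Fintype W] [DecidableEq W] (L : List W) (C : Finset (W × Fin 4))
    (J K : Finset W) (e : W × Fin 4 → W × Fin 4) (α : W × Fin 4 → ZMod 2), Adm L C J K e α →
    3 ≤ C.card + K.card → 2 ≤ L.length → ∀ k ≤ 2, (B2 L C J K e α).coeff k = 0

/-- EVG: at least one dead end. Proof (EVB): `|C| + |K| ≥ 2`, `k ≥ 1`, and `k ≥ 2` unless `J = ∅`,
`|C| + |K| = 2`; then coefficient 1 is the constant coefficient of `SA (fun _ _ => 1)`: SC0 and L2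
(2 ends). -/
def EVG_stmt : Prop :=
  ∀ (W : Type) [Fintype W] [DecidableEq W] (L : List W) (C : Finset (W × Fin 4))
    (J K : Finset W) (e : W × Fin 4 → W × Fin 4) (α : W × Fin 4 → ZMod 2), Adm L C J K e α →
    1 ≤ C.card + K.card → 1 ≤ L.length → ∀ k ≤ 1, (B2 L C J K e α).coeff k = 0

/-- EV4: a group of order 4. Proof: SC1 with `Ω = Om C J K {w} γ`, `r0 = [|E| = 2]`,
`R e' = (Om C J K {w} γ e' α').coeff 1` for any voltages `α'` of `e'` (for instance 0), by PS4;
`par` from PAR. If `|E| = 2`: `F1 = 0` by F12 and `R = 0`; if `|E| = 4`: `r0 = 0`, `NL R L e = 0` by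
L4; otherwise `r0 = 0` and `R e' = 0` for all final `e'` (NLC; `NL 0 = 0`). -/
def EV4_stmt : Prop :=
  ∀ (W A : Type) [Fintype W] [DecidableEq W] [AddCommGroup A] [Fintype A] (L : List W)
    (C : Finset (W × Fin 4)) (J K : Finset W) (w : W) (γ : W × Fin 4 → A)
    (e : W × Fin 4 → W × Fin 4) (α : W × Fin 4 → A),
    Nat.card A = 4 → Adm L C J K e α → w ∈ K → (∀ c ∈ C, γ c ∈ O2 A) →
    (∀ j ∈ J, γ (j, 0) ∈ O2 A) → 2 ≤ L.length →
    (SA (Om C J K {w} γ) L e α).coeff 1 = 0

end Pool.Agent.SYM
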