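import Pool.Agent.helper5.SYM.SpecA

/-!
# Project sy: stronger forms of EVF and EV4 (the number of vertices is needed only if there are at
most 4 ends; same proofs). Rows EVF2, EV42.
-/

set_option autoImplicit false

namespace Pool.Agent.SYM
open Finset CT Polynomial

/-- EVF2: EVF with the hypothesis `2 ≤ L.length` only for `J = ∅`, `|C| + |K| ≤ 4`.
Proof (EVB): `|C| + |K| ≥ 4` (even), `k = |J| + (|C| + |K|) / 2 ≥ 2`; if `k ≥ 3` the coefficients of
`X ^ k * _` below 3 vanish; `k = 2` only for `J = ∅`, `|C| + |K| = 4`: coefficient 2 is the constant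
coefficient of `SA (fun e' _ => X ^ so J e')`, `so ∅ e' = 0`: SC0 and L4 (4 ends). -/
def EVF2_stmt : Prop :=
  ∀ (W : Type) [Fintype W] [DecidableEq W] (L : List W) (C : Finset (W × Fin 4))
    (J K : Finset W) (e : W × Fin 4 → W × Fin 4) (α : W × Fin 4 → ZMod 2), Adm L C J K e α →
    3 ≤ C.card + K.card → (J.card = 0 → C.card + K.card ≤ 4 → 2 ≤ L.length) →
    ∀ k ≤ 2, (B2 L C J K e α).coeff k = 0

/-- EV42: EV4 with the hypothesis `2 ≤ L.length` only if there are at most 4 ends.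
Proof: SC1 with `Ω = Om C J K {w} γ`, `r0 = [|E| = 2]`, `R e' = (Om C J K {w} γ e' 0).coeff 1`, by
PS4; `par` from PAR. `|E| = 2`: `F1 = 0` by F12 and `R = 0`; `|E| = 4`: `r0 = 0`, `NL R L e = 0` by
L4; otherwise `r0 = 0` and `R e' = 0` for all final `e'` (NLC; `NL 0 = 0`), no condition on `L`. -/
def EV42_stmt : Prop :=
  ∀ (W A : Type) [Fintype W] [DecidableEq W] [AddCommGroup A] [Fintype A] (L : List W)
    (C : Finset (W × Fin 4)) (J K : Finset W) (w : W) (γ : W × Fin 4 → A)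
    (e : W × Fin 4 → W × Fin 4) (α : W × Fin 4 → A),
    Nat.card A = 4 → Adm L C J K e α → w ∈ K → (∀ c ∈ C, γ c ∈ O2 A) →
    (∀ j ∈ J, γ (j, 0) ∈ O2 A) → ((Ed C J K).card ≤ 4 → 2 ≤ L.length) →
    (SA (Om C J K {w} γ) L e α).coeff 1 = 0

end Pool.Agent.SYM
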