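import Pool.Agent.helper5.SYM.SpecA2

/-!
# Project sy (MP_45d809_mp): part B, graphs, quotients, groups
-/

set_option autoImplicit false

namespace Pool.Agent.SYM
open Finset CT Polynomial

/-! ## Definitions -/

section qdefs
variable {V D A : Type} [AddCommGroup A]

/-- The copy `0` of a vertex. -/
def l0 (v : V) : V × Fin 3 := (v, 0)

/-- The copy `0` of a dart. -/
def li (x : V × Fin 4) : (V × Fin 3) × Fin 4 := ((x.1, 0), x.2)

/-- The darts of the quotient: four at the vertices of `R`, two at those of `J`, one at those of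
`K`. -/
def XX [Fintype V] [DecidableEq V] (R J K : Finset V) : Finset (V × Fin 4) :=
  R ×ˢ univ ∪ J ×ˢ {0, 1} ∪ K ×ˢ {0}

/-- `s` is a fixed point free involution, `ρ` an action of `A` commuting with `s`, `Y` an invariant
set of darts on which `A` acts freely, and the `κ x`, `x ∈ X`, are representatives of the orbits
on `Y`. -/
structure Fre (s : D → D) (ρ : A → D → D) (Y : D → Prop) (X : Finset (V × Fin 4))
    (κ : V × Fin 4 → D) : Prop where
  ss : ∀ d, s (s d) = d
  sne : ∀ d, s d ≠ d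
  r0 : ∀ d, ρ 0 d = d
  radd : ∀ a b d, ρ (a + b) d = ρ a (ρ b d)
  rs : ∀ a d, ρ a (s d) = s (ρ a d)
  Yr : ∀ a d, Y (ρ a d) ↔ Y d
  Ys : ∀ d, Y (s d) ↔ Y d
  q1 : ∀ x ∈ X, Y (κ x)
  q2 : ∀ d, Y d → ∃ x ∈ X, ∃ a, ρ a (κ x) = d
  q3 : ∀ x ∈ X, ∀ y ∈ X, ∀ a, ρ a (κ x) = κ y → x = y ∧ a = 0

/-- The quotient of the dart set `Y` by `A`: a matching `e` with voltages `α` of the darts
`((v, 0), i)`, `(v, i) ∈ X`, and of the dead ends `((v, 1), i) ∈ C` with labels `γ`
(one for every `x ∈ X` such that `s (κ x)` is in the orbit of `κ x`). -/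
structure Quo (s : D → D) (ρ : A → D → D) (Y : D → Prop) (X : Finset (V × Fin 4))
    (κ : V × Fin 4 → D) (e : (V × Fin 3) × Fin 4 → (V × Fin 3) × Fin 4)
    (α : (V × Fin 3) × Fin 4 → A) (C : Finset ((V × Fin 3) × Fin 4))
    (γ : (V × Fin 3) × Fin 4 → A) : Prop where
  act : ∀ d, e (e d) = d
  act' : ∀ d, e d ≠ d ↔ (∃ x ∈ X, li x = d) ∨ d ∈ C
  vol : Vol e α
  capv : ∀ c ∈ C, c.1.2 = 1 ∧ γ c ∈ O2 A
  capd : ∀ x : V × Fin 4, ((x.1, 1), x.2) ∈ C ↔ x ∈ X ∧ ∃ a, s (κ x) = ρ a (κ x)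
  lab : ∃ F : {φ : D → Bool // (∀ d, φ (s d) = φ d) ∧ ∀ d, ¬ Y d → φ d = false} ≃
      {Φ : (V × Fin 3) × Fin 4 → A → Bool // Lab e α Φ ∧ ∀ c ∈ C, CapC (γ c) (Φ c)},
    ∀ φ, ∀ x ∈ X, ∀ g, (F φ).1 (li x) g = φ.1 (ρ g (κ x))

/-- A function on `V` as a function on the copy 0. -/
def up {B : Type} [Zero B] (f : V → B) (w : V × Fin 3) : B := if w.2 = 0 then f w.1 else 0

/-- The labels of all ends. -/
def gm (γ : V → A) (γ' : (V × Fin 3) × Fin 4 → A) (c : (V × Fin 3) × Fin 4) : A :=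
  if c.1.2 = 0 then γ c.1.1 else γ' c

end qdefs

section gdefs
variable {V A : Type} [AddCommGroup A] {G : SimpleGraph V}

/-- The darts with trivial stabiliser. -/
def Yf (θ : A → (G ≃g G)) (d : G.Dart) : Prop := ∀ a, sd (θ a) d = d → a = 0

/-- Representatives for the action `θ` of `A` on `G`: `R`: vertices with trivial stabiliser (four
darts); `J`: vertices with the stabiliser `{0, γ j}` of order 2 acting freely on the four darts;
`K`: vertices fixed by `A`, whose darts with trivial stabiliser form one orbit. -/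
structure Dat [Fintype V] [DecidableEq V] (θ : A → (G ≃g G)) (R J K : Finset V) (γ : V → A)
    (κ : V × Fin 4 → G.Dart) : Prop where
  hom : ∀ a b v, θ (a + b) v = θ a (θ b v)
  one : ∀ v, θ 0 v = v
  dRJ : Disjoint R J
  dRK : Disjoint R K
  dJK : Disjoint J K
  cov : ∀ d, Yf θ d → ∃ r ∈ R ∪ J ∪ K, ∃ a, θ a r = d.fst
  uni : ∀ r ∈ R ∪ J ∪ K, ∀ r' ∈ R ∪ J ∪ K, ∀ a, θ a r = r' → r = r'
  Rst : ∀ r ∈ R, ∀ a, θ a r = r → a = 0
  Jst : ∀ j ∈ J, γ j ∈ O2 A ∧ ∀ a, θ a j = j ↔ a = 0 ∨ a = γ j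
  Kst : ∀ k ∈ K, ∀ a, θ a k = k
  fst : ∀ x ∈ XX R J K, (κ x).fst = x.1 ∧ Yf θ (κ x)
  Rd : ∀ r ∈ R, ∀ d : G.Dart, d.fst = r → ∃ i, d = κ (r, i)
  Jd : ∀ j ∈ J, ∀ d : G.Dart, d.fst = j →
    d = κ (j, 0) ∨ d = sd (θ (γ j)) (κ (j, 0)) ∨ d = κ (j, 1) ∨ d = sd (θ (γ j)) (κ (j, 1))
  Kd : ∀ k ∈ K, ∀ d : G.Dart, d.fst = k → Yf θ d → ∃ a, d = sd (θ a) (κ (k, 0))
  inj : ∀ x ∈ XX R J K, ∀ y ∈ XX R J K, ∀ a, sd (θ a) (κ x) = κ y → x = y ∧ a = 0

/-- The values of the transition system with the parameters `t`, `ζ` at the representatives. -/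
def TF (θ : A → (G ≃g G)) (R J K : Finset V) (γ : V → A) (κ : V × Fin 4 → G.Dart)
    (t : V → Fin 3) (ζ : V → A) (τ : G.Dart → G.Dart) : Prop :=
  (∀ r ∈ R, ∀ i, τ (κ (r, i)) = κ (r, pa (t r) i)) ∧
  (∀ j ∈ J, τ (κ (j, 0)) = (if t j = 0 then sd (θ (γ j)) (κ (j, 0)) else
    if t j = 1 then κ (j, 1) else sd (θ (γ j)) (κ (j, 1)))) ∧
  (∀ j ∈ J, τ (κ (j, 1)) = (if t j = 0 then sd (θ (γ j)) (κ (j, 1)) else
    if t j = 1 then κ (j, 0) else sd (θ (γ j)) (κ (j, 0)))) ∧
  ∀ k ∈ K, τ (κ (k, 0)) = sd (θ (ζ k)) (κ (k, 0))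

/-- The action of `ZMod 2` given by an involution. -/
def th (σ : G ≃g G) (a : ZMod 2) : G ≃g G := if a = 0 then RelIso.refl _ else σ

/-- The conjugate of a transition system. -/
def cj (σ : G ≃g G) (τ : G.Dart → G.Dart) (d : G.Dart) : G.Dart := sd σ (τ (sd σ.symm d))

/-- `σ` is an involution. -/
def Invol (σ : G ≃g G) : Prop := (∀ v, σ (σ v) = v) ∧ ∃ v, σ v ≠ v

/-- The number of fixed vertices. -/
noncomputable def nfx (σ : G ≃g G) : ℕ := Nat.card {v : V // σ v = v}

/-- The number of inverted edges. -/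
noncomputable def nin (σ : G ≃g G) : ℕ :=
  Nat.card {a : Sym2 V // ∃ u, G.Adj u (σ u) ∧ a = s(u, σ u)}

end gdefs

/-! ## F. Quotients -/

/-- QUO: existence of the quotient.
Proof. For `x ∈ X`, `s (κ x)` lies in `Y`, so by `q2`, `q3` there are unique `y = π x ∈ X`,
`a = λ x` with `s (κ x) = ρ a (κ y)`; `π (π x) = x`, `λ (π x) = -λ x`
(`κ x = s (ρ a (κ y)) = ρ a (s (κ y))`). If `π x = x` then `2 a = 0` and `a ≠ 0` as `s` has no fixed
points: `a ∈ O2 A`. Put `C = {((v,1),i) : (v,i) ∈ X, π (v,i) = (v,i)}`, `γ ((v,1),i) = λ (v,i)`;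
`e (li x) = li (π x)`, `α (li x) = λ x` if `π x ≠ x`; `e (li x) = ((x.1,1),x.2)` and
`e ((x.1,1),x.2) = li x`, `α = 0` on both, if `π x = x`; `e d = d`, `α d = 0` otherwise. `F φ` is:
`Φ (li x) g = φ (ρ g (κ x))` for `x ∈ X`, `Φ ((x.1,1),x.2) g = φ (ρ g (κ x))` for the dead ends,
`false` otherwise. `Lab`: `Φ (li (π x)) (g + λ x) = φ (ρ g (ρ (λ x) (κ (π x)))) = φ (ρ g (s (κ x))) =
φ (s (ρ g (κ x))) = φ (ρ g (κ x))`; dead end: `φ (ρ (g + a) (κ x)) = φ (ρ g (s (κ x))) =
φ (ρ g (κ x))`. Inverse: `φ (ρ g (κ x)) = Φ (li x) g` on `Y` (unique `x`, `g` by `q2`, `q3`),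
`false` off `Y`. -/
def QUO_stmt : Prop :=
  ∀ (V D A : Type) [Fintype V] [DecidableEq V] [Fintype D] [AddCommGroup A] [Fintype A]
    (s : D → D) (ρ : A → D → D) (Y : D → Prop) (X : Finset (V × Fin 4)) (κ : V × Fin 4 → D),
    Fre s ρ Y X κ → ∃ e α C γ, Quo s ρ Y X κ e α C γ

/-- FRD: `Dat` gives `Fre`. (`q2`: for `d` with `d.fst = θ a r` look at `sd (θ (-a)) d`. The set
`Yf θ` is invariant as `A` is commutative and `θ a` is injective.) -/
def FRD_stmt : Prop :=
  ∀ (V A : Type) [Fintype V] [DecidableEq V] [AddCommGroup A] [Fintype A] (G : SimpleGraph V)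
    (θ : A → (G ≃g G)) (R J K : Finset V) (γ : V → A) (κ : V × Fin 4 → G.Dart),
    Dat θ R J K γ κ →
    Fre (fun d : G.Dart => d.symm) (fun a d => sd (θ a) d) (Yf θ) (XX R J K) κ

/-- ADM: the quotient data are admissible, with the list `R.toList` of vertices.
(`XX.image li ∪ C = dts (R × 0) ∪ Ed C (J × 0) (K × 0)`; spare vertex `(v, 2)`.) -/
def ADM_stmt : Prop :=
  ∀ (V A : Type) [Fintype V] [DecidableEq V] [Nonempty V] [AddCommGroup A] [Fintype A]
    (G : SimpleGraph V) (θ : A → (G ≃g G)) (R J K : Finset V) (γ : V → A)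
    (κ : V × Fin 4 → G.Dart) (e : (V × Fin 3) × Fin 4 → (V × Fin 3) × Fin 4)
    (α : (V × Fin 3) × Fin 4 → A) (C : Finset ((V × Fin 3) × Fin 4))
    (γ' : (V × Fin 3) × Fin 4 → A),
    Dat θ R J K γ κ →
    Quo (fun d : G.Dart => d.symm) (fun a d => sd (θ a) d) (Yf θ) (XX R J K) κ e α C γ' →
    Adm (R.toList.map l0) C (J.image l0) (K.image l0) e α

/-- BIJ: parametrisation of the invariant transition systems with given values off `Yf θ`.
Proof. An invariant transition system `τ` commutes with `sd (θ a)` and is injective, so `τ d` has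
the same stabiliser as `d`: it preserves `Yf θ`. Definition of `T t ζ`: `τ₀ d` off `Yf θ`; for
`d = sd (θ a) (κ x)` (unique `a`, `x`, see FRD) put `T d = sd (θ a) (c x)`, where `c x` is the value
prescribed in `TF`. It is an involution: `pa t` is one, and `sd (θ (γ j))`, `sd (θ (ζ k))` are
(order 2); no fixed points by `inj`; `(T d).fst = d.fst` (`θ (γ j) j = j`). Uniqueness and
existence for given `τ`: at `r ∈ R` the darts are the `κ (r, i)` (distinct), so `τ` gives a fixed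
point free involution of `Fin 4`, which is `pa t` for exactly one `t` (decide over the functions
`Fin 4 → Fin 4`). At `j ∈ J`: `τ (κ (j,0))` is one of `sd (θ (γ j)) (κ (j,0))`, `κ (j,1)`,
`sd (θ (γ j)) (κ (j,1))` (four distinct darts at `j`): `t j = 0, 1, 2`; then `τ (κ (j,1))` is
determined by invariance. At `k ∈ K`: `τ (κ (k,0))` is in `Yf θ` and at `k`, so it is
`sd (θ a) (κ (k,0))`, `a ≠ 0`, and applying `τ` twice `2 a = 0`: `ζ k = a ∈ O2 A`. All other values
follow by invariance. -/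
def BIJ_stmt : Prop :=
  ∀ (V A : Type) [Fintype V] [DecidableEq V] [AddCommGroup A] [Fintype A] (G : SimpleGraph V)
    (θ : A → (G ≃g G)) (R J K : Finset V) (γ : V → A) (κ : V × Fin 4 → G.Dart)
    (τ₀ : G.Dart → G.Dart),
    Dat θ R J K γ κ → IsTS τ₀ → (∀ a, Inv (θ a) τ₀) →
    ∃ T : (V → Fin 3) → (V → A) → G.Dart → G.Dart,
      (∀ t, ∀ ζ ∈ pz K, IsTS (T t ζ) ∧ (∀ a, Inv (θ a) (T t ζ)) ∧
        (∀ d, ¬ Yf θ d → T t ζ d = τ₀ d) ∧ TF θ R J K γ κ t ζ (T t ζ)) ∧
      ∀ τ : G.Dart → G.Dart, IsTS τ → (∀ a, Inv (θ a) τ) → (∀ d, ¬ Yf θ d → τ d = τ₀ d) →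
        ∃! p : (V → Fin 3) × (V → A), p.1 ∈ pf (R ∪ J) ∧ p.2 ∈ pz K ∧ T p.1 p.2 = τ

/-- GPL: invariant labelings of the darts are labelings of the quotient.
Proof. By `lab` the functions `φ` invariant under `symm` and vanishing off `Yf θ` correspond to the
`Φ` with `Lab` and the conditions at the dead ends of `C`, `Φ (li x) g = φ (sd (θ g) (κ x))`.
Invariance under `τ` (which preserves `Yf θ`, see BIJ) has to be checked for
`d = sd (θ g) (κ x)`: `τ d = sd (θ g) (τ (κ x))`. `x = (r,i)`: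
`Φ (li (r, pa (t r) i)) g = Φ (li (r,i)) g`. `x = (j, 0)`, `(j, 1)`: for `t j = 0`:
`Φ (li x) (g + γ j) = Φ (li x) g`; `t j = 1`: `Φ (li (j,1)) = Φ (li (j,0))`; `t j = 2`:
`Φ (li (j,1)) (g + γ j) = Φ (li (j,0)) g` (and the same with 0, 1 exchanged, which is equivalent as
`2 γ j = 0`). `x = (k,0)`: `Φ (li x) (g + ζ k) = Φ (li x) g`. Vanishing at the darts at `k ∈ Z`: these
are the `sd (θ a) (κ (k,0))` and darts off `Yf θ`. These are the conditions of `LabK`
(`gm γ γ' ((j,0),0) = γ j`, `gm γ γ' c = γ' c` for `c ∈ C`). -/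
def GPL_stmt : Prop :=
  ∀ (V A : Type) [Fintype V] [DecidableEq V] [AddCommGroup A] [Fintype A] (G : SimpleGraph V)
    (θ : A → (G ≃g G)) (R J K Z : Finset V) (γ : V → A) (κ : V × Fin 4 → G.Dart)
    (e : (V × Fin 3) × Fin 4 → (V × Fin 3) × Fin 4)
    (α : (V × Fin 3) × Fin 4 → A) (C : Finset ((V × Fin 3) × Fin 4))
    (γ' : (V × Fin 3) × Fin 4 → A) (t : V → Fin 3) (ζ : V → A) (τ : G.Dart → G.Dart),
    Dat θ R J K γ κ →
    Quo (fun d : G.Dart => d.symm) (fun a d => sd (θ a) d) (Yf θ) (XX R J K) κ e α C γ' →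
    Z ⊆ K → IsTS τ → (∀ a, Inv (θ a) τ) → TF θ R J K γ κ t ζ τ →
    Nat.card {φ : G.Dart → Bool // (∀ d, φ d.symm = φ d) ∧ (∀ d, φ (τ d) = φ d) ∧
        ∀ d, (¬ Yf θ d ∨ d.fst ∈ Z) → φ d = false} =
      Nat.card {Φ : (V × Fin 3) × Fin 4 → A → Bool //
        LabK C (J.image l0) (K.image l0) (Z.image l0) (gm γ γ') e α (up t) (up ζ) Φ ∧
        ∀ u ∈ R.toList.map l0, ∀ i, Φ (u, pa (up t u) i) = Φ (u, i)}

/-- GPA: the number of invariant transition systems by the number of circuits, modulo 2.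
Proof. By BIJ the transition systems on the left are the `T t ζ`, `t ∈ pf (R ∪ J)`, `ζ ∈ pz K`
(injective). By LBF, GPL and LBA (with `E = Ed C ..`, see ADM, and the list `R.toList.map l0`):
`2 ^ gav (T t ζ) _ = 2 ^ lpsv L e α (up t) * card {LabK .. (fe ..) (fa ..) (up t) (up ζ)}`, so
`gav = lpsv L e α (up t) + LK .. (fe ..) (fa ..) (up t) (up ζ)` (`Nat.log` of `2 ^ gav`; the number
of labelings is positive). A function in `pf (R ∪ J)` is a pair of functions in `pf R`, `pf J`;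
`up` gives bijections `pf R → pf (R × 0)` etc. (`lpsv`, `fe`, `fa` depend only on the values of `t`
on the list, `LabK` only on those on `J`.) So the generating polynomial over `ZMod 2` is
`∑ t ∈ pf R', X ^ lpsv * ∑ t2 ∈ pf J', ∑ ζ ∈ pz K', X ^ LK = SA (Om ..) L e α` by SAS. -/
def GPA_stmt : Prop :=
  ∀ (V A : Type) [Fintype V] [DecidableEq V] [Nonempty V] [AddCommGroup A] [Fintype A]
    (G : SimpleGraph V) (θ : A → (G ≃g G)) (R J K Z : Finset V) (γ : V → A)
    (κ : V × Fin 4 → G.Dart) (τ₀ : G.Dart → G.Dart)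
    (e : (V × Fin 3) × Fin 4 → (V × Fin 3) × Fin 4)
    (α : (V × Fin 3) × Fin 4 → A) (C : Finset ((V × Fin 3) × Fin 4))
    (γ' : (V × Fin 3) × Fin 4 → A),
    Dat θ R J K γ κ → IsTS τ₀ → (∀ a, Inv (θ a) τ₀) →
    Quo (fun d : G.Dart => d.symm) (fun a d => sd (θ a) d) (Yf θ) (XX R J K) κ e α C γ' →
    Z ⊆ K → ∀ k : ℕ,
    ((Nat.card {τ : G.Dart → G.Dart // IsTS τ ∧ (∀ a, Inv (θ a) τ) ∧
        (∀ d, ¬ Yf θ d → τ d = τ₀ d) ∧ gav τ (fun d => ¬ Yf θ d ∨ d.fst ∈ Z) = k} : ℕ) :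
        ZMod 2) =
      (SA (Om C (J.image l0) (K.image l0) (Z.image l0) (gm γ γ')) (R.toList.map l0) e α).coeff k

/-! ## G. The invariant and transition systems -/

/-- ZPF: the state sum as a sum over functions. Induction on `L` as for SAS. -/
def ZPF_stmt : Prop :=
  ∀ (V : Type) [Fintype V] [DecidableEq V] (x : ℤ) (L : List V) (e : V × Fin 4 → V × Fin 4),
    L.Nodup → Z x L e = ∑ t ∈ pf L.toFinset, x ^ lps L e t

/-- N31: counting by the number of loops before and after the last vertex.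
Proof: JZ5 (`CT.JZ5`, helper89/CT/JZ5.lean) and ZPF: for all integers `x`
`∑ t ∈ pf (L ++ [v]), x ^ lps (L ++ [v]) e t = (x ^ 2 + 2 * x) * ∑ t ∈ pf L, x ^ lps L e t`. So the
polynomials with integer coefficients are equal (`Polynomial.funext`), compare the coefficients
of `X ^ 3`. -/
def N31_stmt : Prop :=
  ∀ (V : Type) [Fintype V] [DecidableEq V] (v : V) (L : List V) (e : V × Fin 4 → V × Fin 4),
    L.Nodup → v ∉ L → Act (dts (insert v L.toFinset)) e →
    ((pf (L ++ [v]).toFinset).filter fun t => lps (L ++ [v]) e t = 3).card =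
      ((pf L.toFinset).filter fun t => lps L e t = 1).card +
        2 * ((pf L.toFinset).filter fun t => lps L e t = 2).card

/-- A1C: `c_2` at `q = 2` is the number of smoothings of `G - v` with exactly one loop.
Proof (contrapositive): let `a_j` be the number of `t ∈ pf L` with `lps = j`, `N = numZeros`.
`CT.core` (helper56/CT/Main.lean, with `fE1 fE2 fE4 fB5 fJC3 card_edges`, see `c2_of_Z`) and JZ5 at
`x = -4`: `32 ∣ 4 N - 8 Z (-4) L e`; by ZPF `Z (-4) L e ≡ a_0 mod 4`, so `N ≡ 2 a_0 mod 8`. `fJC3`: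
`32 ∣ Z (-4) (L ++ [v]) e - 4 Z (-2) L e`, `fJC1`: `16 ∣ Z (-4) (L ++ [v]) e`, so
`4 ∣ Z (-2) L e ≡ a_0 - 2 a_1 mod 4`. So `N ≡ 4 a_1 mod 8`, and if `a_1` is even `32 ∣ 4 N`:
`CT.c2_of_dvd`. -/
def A1C_stmt : Prop :=
  ∀ (V : Type) [Fintype V] [DecidableEq V] (G : SimpleGraph V) (v : V)
    (e : V × Fin 4 → V × Fin 4) (L : List V),
    FourRegular G → 7 ≤ Fintype.card V → Act (dts (univ : Finset V)) e →
    (∀ u i, G.Adj u (e (u, i)).1) → (∀ u w, G.Adj u w → ∃ i, (e (u, i)).1 = w) →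
    (∀ u i j, (e (u, i)).1 = (e (u, j)).1 → i = j) → L.Nodup → L.toFinset = univ.erase v →
    ¬ C2Is (decompletion G v) (ZMod 2) 0 →
    Odd ((pf L.toFinset).filter fun t => lps L e t = 1).card

/-- LB0: labelings and loops without voltages.
Proof: LBA with the trivial group `A = PUnit` (`wA 0 = 1`, so `lpsv L e 0 t = lps L e t`; a function
`φ : V × Fin 4 → Bool` is `Φ d = fun _ => φ d`). (1): the condition `K` is: zero at the darts of `v`;
at the end the four darts at `v` are matched by an involution, exactly one labeling is zero there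
(all others are `false` by `Lab`). (2): list `L ++ [v]`, all darts are inactive at the end: one
labeling. (`∀ d, φ (tr t d) = φ d`: for (1) at `v` both sides are `false`.) -/
def LB0_stmt : Prop :=
  ∀ (V : Type) [Fintype V] [DecidableEq V] (v : V) (L : List V) (e : V × Fin 4 → V × Fin 4)
    (t : V → Fin 3), L.Nodup → v ∉ L → insert v L.toFinset = univ → Act (dts univ) e →
    Nat.card {φ : V × Fin 4 → Bool // (∀ d, φ (e d) = φ d) ∧ (∀ d, φ (tr t d) = φ d) ∧
        ∀ d : V × Fin 4, d.1 = v → φ d = false} = 2 ^ lps L e t ∧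
    Nat.card {φ : V × Fin 4 → Bool // (∀ d, φ (e d) = φ d) ∧ ∀ d, φ (tr t d) = φ d} =
      2 ^ lps (L ++ [v]) e t

/-- TRP: the transition systems of `G`.
Proof: the bijection `δ` from the darts of `G` to `V × Fin 4`: `δ d = (d.fst, i)` with
`(e (d.fst, i)).1 = d.snd`; `δ d.symm = e (δ d)`. A transition system at `u` is a fixed point free
involution of `Fin 4`, i.e. `pa t` for exactly one `t`; `T t d = δ⁻¹ (tr t (δ d))`. The numbers of
circuits: LBF for `s = symm`, `τ = T t`, `Q = False` resp. `fst = v`, transported by `δ`, and LB0. -/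
def TRP_stmt : Prop :=
  ∀ (V : Type) [Fintype V] [DecidableEq V] (G : SimpleGraph V) (v : V)
    (e : V × Fin 4 → V × Fin 4) (L : List V), Act (dts (univ : Finset V)) e →
    (∀ u i, G.Adj u (e (u, i)).1) → (∀ u w, G.Adj u w → ∃ i, (e (u, i)).1 = w) →
    (∀ u i j, (e (u, i)).1 = (e (u, j)).1 → i = j) → L.Nodup → L.toFinset = univ.erase v →
    ∃ T : (V → Fin 3) → G.Dart → G.Dart, (∀ t, IsTS (T t)) ∧
      (∀ τ : G.Dart → G.Dart, IsTS τ → ∃! t, T t = τ) ∧
      ∀ t, gav (T t) (fun _ => False) = lps (L ++ [v]) e t ∧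
        gav (T t) (fun d => d.fst = v) = lps L e t

/-- LNK3: Proof: take `e` from `CT.E3` (helper56/CT/E3.lean, see `twins` in Main.lean for the
passage from `FourRegular`), `L = (univ.erase v).toList`. TRP: `N3 G` is the number of `t` with
`lps (L ++ [v]) e t = 3`, which is odd by A1C and N31. -/
def LNK3_stmt : Prop :=
  ∀ (V : Type) [Fintype V] [DecidableEq V] (G : SimpleGraph V) (v : V),
    FourRegular G → 7 ≤ Fintype.card V → ¬ C2Is (decompletion G v) (ZMod 2) 0 → Odd (N3 G)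

/-- LNK1: Proof: as LNK3 with `w` instead of `v`: `N3 G = a_1 + 2 a_2` (N31), so `a_1` is odd;
`N1 G w` is the number of all `t : V → Fin 3` with `lps L e t = 1`, which is `3 a_1` (the value
`t w` is arbitrary, `lps L e t` depends only on the values on `L`). -/
def LNK1_stmt : Prop :=
  ∀ (V : Type) [Fintype V] [DecidableEq V] (G : SimpleGraph V) (w : V),
    FourRegular G → 7 ≤ Fintype.card V → Odd (N3 G) → Odd (N1 G w)

/-- CNX: `G` is connected.
Proof: if `G - v` has no spanning tree then `graphPoly = 0`, so `numZeros = 2 ^ |E|` with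
`|E| ≥ 3` (`CT.card_edges`) and `C2Is _ _ 0`. So `G - v` has a spanning tree, it is connected, and `v`
has a neighbour. (`SpTree H T` gives `H.Connected`: the tree is a subgraph.) -/
def CNX_stmt : Prop :=
  ∀ (V : Type) [Fintype V] [DecidableEq V] (G : SimpleGraph V) (v : V),
    FourRegular G → 7 ≤ Fintype.card V → ¬ C2Is (decompletion G v) (ZMod 2) 0 → G.Connected

/-! ## H. Groups acting on transition systems -/

/-- CJI: circuits of the conjugate; `cj` is an action.
Proof of the first part: the bijection `sd σ` of the darts commutes with `symm` and maps the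
relation of `Cir` for `τ` to that for `cj σ τ`. (Or with LBF.) -/
def CJI_stmt : Prop :=
  ∀ (V : Type) [Fintype V] (G : SimpleGraph V) (σ : G ≃g G) (τ : G.Dart → G.Dart),
    (∀ Q : G.Dart → Prop, gav (cj σ τ) Q = gav τ (fun d => Q (sd σ d))) ∧
    (IsTS τ → IsTS (cj σ τ)) ∧ (cj σ τ = τ ↔ Inv σ τ)

/-- EQP: fixed points of a 2-group modulo 2.
Proof: `P` acts on the finite set of the transition systems with `B` by `cj` (CJI; `MulAction`);
`IsPGroup.card_modEq_card_fixedPoints`. -/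
def EQP_stmt : Prop :=
  ∀ (V P : Type) [Fintype V] [Group P] [Finite P] (G : SimpleGraph V) (θ : P →* (G ≃g G))
    (B : (G.Dart → G.Dart) → Prop), IsPGroup 2 P → (∀ p τ, B τ → B (cj (θ p) τ)) →
    ((Nat.card {τ : G.Dart → G.Dart // IsTS τ ∧ B τ} : ℕ) : ZMod 2) =
      (Nat.card {τ : G.Dart → G.Dart // IsTS τ ∧ B τ ∧ ∀ p, Inv (θ p) τ} : ℕ)

/-- EQA: the same for an additive group. Proof: EQP for `P = Multiplicative A`. -/
def EQA_stmt : Prop :=
  ∀ (V A : Type) [Fintype V] [AddCommGroup A] [Fintype A] (G : SimpleGraph V)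
    (θ : A → (G ≃g G)), (∃ k, Nat.card A = 2 ^ k) → (∀ a b v, θ (a + b) v = θ a (θ b v)) →
    (Odd (N3 G) → Odd (Nat.card {τ : G.Dart → G.Dart // IsTS τ ∧ (∀ a, Inv (θ a) τ) ∧
      gav τ (fun _ => False) = 3})) ∧
    ∀ w, (∀ a, θ a w = w) → Odd (N1 G w) →
      Odd (Nat.card {τ : G.Dart → G.Dart // IsTS τ ∧ (∀ a, Inv (θ a) τ) ∧
        gav τ (fun d => d.fst = w) = 1})

/-- PRT: an odd set of maps has an odd class for the relation being equal off `Y`. -/
def PRT_stmt : Prop :=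
  ∀ (D : Type) [Finite D] (B : (D → D) → Prop) (Y : D → Prop),
    Odd (Nat.card {τ : D → D // B τ}) →
    ∃ τ₀, B τ₀ ∧ Odd (Nat.card {τ : D → D // B τ ∧ ∀ d, ¬ Y d → τ d = τ₀ d})

/-! ## I. Involutions -/

/-- NB1: representatives for an involution.
Proof. `Yf (th σ) d ↔ sd σ d ≠ d`. `J`, `K` as stated; `R`: choose one vertex from every pair
`{v, σ v}`, `σ v ≠ v` (for instance with a linear order on `V`, or by `Quot.out`). `κ (r, i)`: the
four darts at `r` (`FourRegular`); `κ (j, 0)`: any dart `d` at `j`, `κ (j, 1)`: a dart at `j`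
different from `d`, `sd σ d` (`σ` acts without fixed points on the four darts at `j`);
`κ (k, 0)`: a dart at `k` which is not fixed: there are exactly two such darts, `d` and `sd σ d` (the
number of darts at `k` which are not fixed is even, not 0 and not 4). `γ = 1`. Other values of `κ`:
any dart (for these `J`, `K`, `R` are not involved). Disjointness and `inj`: compare the first
vertices. -/
def NB1_stmt : Prop :=
  ∀ (V : Type) [Fintype V] [DecidableEq V] (G : SimpleGraph V) (σ : G ≃g G),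
    FourRegular G → Invol σ →
    ∃ (R J K : Finset V) (κ : V × Fin 4 → G.Dart), Dat (th σ) R J K (fun _ => 1) κ ∧
      (∀ v, v ∈ J ↔ σ v = v ∧ ∀ d : G.Dart, d.fst = v → sd σ d ≠ d) ∧
      (∀ v, v ∈ K ↔ σ v = v ∧ (∃ d : G.Dart, d.fst = v ∧ sd σ d = d) ∧
        ∃ d : G.Dart, d.fst = v ∧ sd σ d ≠ d) ∧
      2 * R.card + nfx σ = Fintype.card V ∧ 1 ≤ R.card

/-- YF1: short facts: `Yf (th σ) d ↔ sd σ d ≠ d`; `th σ` is a homomorphism; invariance. -/
def YF1_stmt : Prop :=
  ∀ (V : Type) [Fintype V] [DecidableEq V] (G : SimpleGraph V) (σ : G ≃g G), Invol σ →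
    (∀ d, Yf (th σ) d ↔ sd σ d ≠ d) ∧ (∀ a b v, th σ (a + b) v = th σ a (th σ b v)) ∧
    (∀ τ, (∀ a, Inv (th σ a) τ) ↔ Inv σ τ) ∧
    ∀ τ : G.Dart → G.Dart, IsTS τ → Inv σ τ → ∀ d, sd σ (τ d) = τ d ↔ sd σ d = d

/-- CNT: the dead ends of the quotient are the inverted edges.
Proof: `((v,1),i) ∈ C` iff `(v,i) ∈ XX` and `(κ (v,i)).symm = sd σ (κ (v,i))` (`a = 1`, as `symm`
has no fixed points), i.e. `κ (v,i)` is the dart from `v` to `σ v`; then `σ v ≠ v`, so `v ∈ R`. The map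
`((v,1),i) ↦ s(v, σ v)` is a bijection from `C` onto the inverted edges (of `u`, `σ u` exactly one is
in `R`, by `cov`, `uni`; `i` is determined by `v`), and `C → R` is injective. -/
def CNT_stmt : Prop :=
  ∀ (V : Type) [Fintype V] [DecidableEq V] (G : SimpleGraph V) (σ : G ≃g G)
    (R J K : Finset V) (κ : V × Fin 4 → G.Dart)
    (e : (V × Fin 3) × Fin 4 → (V × Fin 3) × Fin 4)
    (α : (V × Fin 3) × Fin 4 → ZMod 2) (C : Finset ((V × Fin 3) × Fin 4))
    (γ' : (V × Fin 3) × Fin 4 → ZMod 2), FourRegular G → Invol σ →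
    Dat (th σ) R J K (fun _ => 1) κ →
    Quo (fun d : G.Dart => d.symm) (fun a d => sd (th σ a) d) (Yf (th σ)) (XX R J K) κ e α C γ' →
    C.card = nin σ ∧ C.card ≤ R.card

/-- BG1: for an involution the count of GPA (with `Z = ∅`) is a coefficient of `B2`.
Proof: NB1, FRD, QUO, ADM, GPA, CNT. All labels in `Om` may be replaced by 1: `gm (fun _ => 1) γ'`
is 1 at the ends used (`O2 (ZMod 2) = {1}`, `capv`), so the labelings are the same. -/
def BG1_stmt : Prop :=
  ∀ (V : Type) [Fintype V] [DecidableEq V] [Nonempty V] (G : SimpleGraph V) (σ : G ≃g G),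
    FourRegular G → Invol σ →
    ∃ (R J K : Finset V) (C : Finset ((V × Fin 3) × Fin 4))
      (e : (V × Fin 3) × Fin 4 → (V × Fin 3) × Fin 4) (α : (V × Fin 3) × Fin 4 → ZMod 2),
      (∀ v, v ∈ J ↔ σ v = v ∧ ∀ d : G.Dart, d.fst = v → sd σ d ≠ d) ∧
      (∀ v, v ∈ K ↔ σ v = v ∧ (∃ d : G.Dart, d.fst = v ∧ sd σ d = d) ∧
        ∃ d : G.Dart, d.fst = v ∧ sd σ d ≠ d) ∧
      2 * R.card + nfx σ = Fintype.card V ∧ 1 ≤ R.card ∧ C.card = nin σ ∧ C.card ≤ R.card ∧
      Adm (R.toList.map l0) C (J.image l0) (K.image l0) e α ∧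
      ∀ τ₀ : G.Dart → G.Dart, IsTS τ₀ → Inv σ τ₀ → ∀ k : ℕ,
        ((Nat.card {τ : G.Dart → G.Dart // IsTS τ ∧ Inv σ τ ∧
          (∀ d, sd σ d = d → τ d = τ₀ d) ∧ gav τ (fun d => sd σ d = d) = k} : ℕ) : ZMod 2) =
        (B2 (R.toList.map l0) C (J.image l0) (K.image l0) e α).coeff k

/-- IV0: no fixed darts.
Proof: `K = ∅`, `|J| = nfx σ = f`, `|C| = nin σ = i` (even by EVB), `|R| = m`, `n = 2 m + f`,
`i ≤ m`. By EQA (`A = ZMod 2`, `th σ`, YF1) the number of invariant transition systems with three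
circuits is odd; choose one as `τ₀`; the count of BG1 for `k = 3` is this number. Suppose `f ≥ 3` or
`i ≥ 3` (so `i ≥ 4`) or `(f, i) = (1, 0)`. Then EV3 applies and gives 0, contradiction: `f + i/2 ≥ 4`;
or `f + i/2 = 3`, `(f,i) = (3,0), (1,4), (0,6)`, where `m ≥ 3` (`m ≥ i` resp. `2 m = n - 3`) except for
`n = 7`, `f = 3`, `m = 2`; or `(0,4)`: `m ≥ 4`; or `(1,0)`: `2 m = n - 1`. In the exceptional case a
fixed vertex is not adjacent to another fixed vertex (the dart would be fixed), so all three fixed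
vertices are adjacent to the four other vertices: two of them are twins. -/
def IV0_stmt : Prop :=
  ∀ (V : Type) [Fintype V] [DecidableEq V] (G : SimpleGraph V) (σ : G ≃g G),
    FourRegular G → 7 ≤ Fintype.card V → Odd (N3 G) → ¬ HasTwins G → Invol σ →
    (∀ d : G.Dart, sd σ d ≠ d) → nfx σ ≤ 2 ∧ nin σ ≤ 2 ∧ ¬ (nfx σ = 1 ∧ nin σ = 0)

/-- IV1: there is a fixed dart, but no vertex all of whose darts are fixed: impossible.
Proof: EQA (`N3`), PRT with `Y d ↔ sd σ d ≠ d`: an invariant `τ₀` with three circuits such that the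
number of invariant `τ` with three circuits and `τ = τ₀` on the fixed darts is odd. For such `τ`:
SPL with `Q = False`, `Q0 d ↔ sd σ d = d` (YF1): `3 = gav τ (fixed) + gav τ (not fixed)`; the second
term is the same for `τ₀` (RES), call it `c0`; `c0 ≥ 1` as there is a fixed dart (its circuit avoids
the darts which are not fixed). So the count of BG1 for `k = 3 - c0 ≤ 2` is odd. But EVF2 gives 0:
`|K| ≥ 3`: a fixed dart at `v` shows `v ∈ K`; the number of darts at `v` which are not fixed is even,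
so `v` has two fixed darts, to two different fixed vertices, which are in `K`, too. And if `|J| = 0`
and `|C| + |K| ≤ 4` then `nfx σ = |K| ≤ 4` (every fixed vertex is in `J` or `K`) and
`2 |R| = n - nfx σ ≥ 3`, so `|R| ≥ 2`. -/
def IV1_stmt : Prop :=
  ∀ (V : Type) [Fintype V] [DecidableEq V] (G : SimpleGraph V) (σ : G ≃g G),
    FourRegular G → 7 ≤ Fintype.card V → Odd (N3 G) → Invol σ →
    (∃ d : G.Dart, sd σ d = d) → (∀ v, ∃ d : G.Dart, d.fst = v ∧ sd σ d ≠ d) → False

/-- IV2: there is a vertex `w` all of whose darts are fixed: impossible.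
Proof: LNK1, EQA (`N1 G w`), PRT: an invariant `τ₀` with `gav τ₀ (fst = w) = 1` such that the number
of invariant `τ` with `gav τ (fst = w) = 1`, `τ = τ₀` on the fixed darts is odd. SPL with
`Q d ↔ d.fst = w`, `Q0 d ↔ sd σ d = d`: `gav τ Q = gav τ (Q ∨ Q0) + gav τ (Q ∨ ¬ Q0)`; `Q ∨ Q0` is
`Q0`, and the second term is that of `τ₀` (RES), `c0 ≤ 1`. So the count of BG1 for
`k = 1 - c0 ≤ 1` is odd; but EVG gives 0: `|R| ≥ 1`, and `K` is not empty: otherwise every fixed
vertex has no fixed dart or only fixed darts, so the vertices with only fixed darts are closed under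
adjacency, by connectivity all vertices are fixed. -/
def IV2_stmt : Prop :=
  ∀ (V : Type) [Fintype V] [DecidableEq V] (G : SimpleGraph V) (σ : G ≃g G) (w : V),
    FourRegular G → 7 ≤ Fintype.card V → G.Connected → Odd (N3 G) → Invol σ →
    (∀ d : G.Dart, d.fst = w → sd σ d = d) → False

/-! ## J. Groups of order 4 -/

/-- NB4: representatives for a group of order 4 acting freely on the darts.
Proof: choose one vertex in every orbit of vertices (`Quot.out` or a linear order); the stabiliser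
has order 1 (`R`), 2 (`J`, `γ j` its generator) or 4 (`K`; the representative is the vertex itself).
The stabiliser acts freely on the four darts at the representative: choose representatives of its
4, 2, 1 orbits. -/
def NB4_stmt : Prop :=
  ∀ (V A : Type) [Fintype V] [DecidableEq V] [AddCommGroup A] [Fintype A] (G : SimpleGraph V)
    (θ : A → (G ≃g G)), Nat.card A = 4 → FourRegular G →
    (∀ a b v, θ (a + b) v = θ a (θ b v)) → (∀ v, θ 0 v = v) → (∀ d, Yf θ d) →
    ∃ (R J K : Finset V) (γ : V → A) (κ : V × Fin 4 → G.Dart), Dat θ R J K γ κ ∧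
      ∀ v, (∀ a, θ a v = v) → v ∈ K

/-- TW4: few vertices. Proof: `N(v)` is one orbit with trivial stabilisers, so its representative is
in `R`: `R = {r}` and the vertices with trivial stabiliser are exactly those of `N(v)`. If there is
`x ∈ K`, `x ≠ v`: its darts form one free orbit, so `N(x)` is an orbit of vertices of trivial
stabiliser, `N(x) = N(v)`: twins. Otherwise `K = {v}`, `n = 5 + 2 |J|` (orbits of size 2), and
`2 |J| + |K| ≤ 4` gives `|J| ≤ 1`, so `n = 7`, `J = {x}`, the other vertices are `x` and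
`x' = θ a x`; `x` is not adjacent to `x'` (the stabiliser of `x` fixes also `x'`, as `A` is
commutative, so it would fix the dart from `x` to `x'`), so `N(x) ⊆ N(v)`, equality: twins. -/
def TW4_stmt : Prop :=
  ∀ (V A : Type) [Fintype V] [DecidableEq V] [AddCommGroup A] [Fintype A] (G : SimpleGraph V)
    (θ : A → (G ≃g G)) (R J K : Finset V) (γ : V → A) (κ : V × Fin 4 → G.Dart) (v : V),
    Nat.card A = 4 → FourRegular G → 7 ≤ Fintype.card V → (∀ d, Yf θ d) →
    Dat θ R J K γ κ → (∀ a, θ a v = v) → (∀ u w, G.Adj v u → G.Adj v w → ∃ a, θ a u = w) →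
    R.card ≤ 1 → 2 * J.card + K.card ≤ 4 → HasTwins G

/-- OR4: no group of order 4 acts freely on the darts and fixes a vertex.
Proof: NB4, FRD, QUO, ADM; the darts at `v` form one orbit (four darts, free), so the group is
transitive on `N(v)`. `A` acts by 2-group: LNK1, EQA (`N1 G v`): the number of invariant `τ` with
`gav τ (fst = v) = 1` is odd; choose one as `τ₀`; by GPA with `Z = {v}` (`Yf θ` is everything) it is
the coefficient of `X` of `SA (Om C .. {(v,0)} ..)`, which is 0 by EV42 if the condition on the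
number of vertices holds. Otherwise `|R| ≤ 1` and `|Ed| = |C| + 2 |J| + |K| ≤ 4`: TW4. (Labels:
`gm γ γ'` is of order 2 at the ends by `Jst`, `capv`.) -/
def OR4_stmt : Prop :=
  ∀ (V A : Type) [Fintype V] [DecidableEq V] [AddCommGroup A] [Fintype A] (G : SimpleGraph V)
    (θ : A → (G ≃g G)) (v : V), Nat.card A = 4 → FourRegular G → 7 ≤ Fintype.card V →
    Odd (N3 G) → ¬ HasTwins G → (∀ a b v, θ (a + b) v = θ a (θ b v)) → (∀ v, θ 0 v = v) →
    (∀ d, Yf θ d) → (∀ a, θ a v = v) → False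

/-- FRE: 2-groups act freely on the darts if involutions fix no dart. Proof: `p ≠ 1` of order
`2 ^ k`, `k ≥ 1`: `p ^ (2 ^ (k - 1))` is an involution fixing `d`. -/
def FRE_stmt : Prop :=
  ∀ (V : Type) [Fintype V] (G : SimpleGraph V) (P : Subgroup (G ≃g G)), IsPGroup 2 P →
    (∀ σ : G ≃g G, Invol σ → ∀ d : G.Dart, sd σ d ≠ d) →
    ∀ p ∈ P, ∀ d : G.Dart, sd p d = d → p = 1

/-- TR4: a locally transitive vertex stabiliser contains a group of order 4 as in OR4.
Proof: let `S` be the stabiliser of `v`, `P` a Sylow 2-subgroup of `S`. `S` is transitive on the 4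
darts at `v`, so the index of the stabiliser `S_d` of a dart is 4; `|P : P_d| ≥ 4` as `|P_d|` divides
`|S_d| = |S| / 4` and is a power of 2, so `|P_d| ≤ |P| / 4`. By FRE (`P` as a subgroup of the
automorphism group) `P_d = 1` and the orbit has at most 4 elements: `|P| = 4`. Groups of order
`2 ^ 2` are commutative (`IsPGroup.commutative_of_card_eq_prime_sq` or
`IsPGroup.commGroupOfCardEqPrimeSq`); take `A = Additive P`. -/
def TR4_stmt : Prop :=
  ∀ (V : Type) [Fintype V] [DecidableEq V] (G : SimpleGraph V) (v : V), FourRegular G →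
    (∀ u w, G.Adj v u → G.Adj v w → ∃ σ : G ≃g G, σ v = v ∧ σ u = w) →
    (∀ σ : G ≃g G, Invol σ → ∀ d : G.Dart, sd σ d ≠ d) →
    ∃ (A : Type) (_ : AddCommGroup A) (_ : Fintype A) (θ : A → (G ≃g G)), Nat.card A = 4 ∧
      (∀ a b v, θ (a + b) v = θ a (θ b v)) ∧ (∀ v, θ 0 v = v) ∧ (∀ d, Yf θ d) ∧
      ∀ a, θ a v = v

/-! ## K. Dihedral groups -/

/-- DHE: a group acting freely on one circuit embeds in a dihedral group.
Proof: let `r d = τ (s d)`; `s r s = r⁻¹`. Let `N ≥ 1` be the smallest positive number with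
`r^N d₀ = d₀` (`Function.minimalPeriod`). Every dart of the circuit of `d₀` is `r^i d₀` or
`s (r^i d₀)` (this set is closed under `s`, `τ`; induction over `EqvGen`). `s (r^i d₀) ≠ r^j d₀`:
otherwise, with `d = r^i d₀`, `s d = r^k d`, `k = j - i` (as an integer); `k = 2 l`:
`s (r^l d) = r^(-l) (s d) = r^l d`, `s` would have a fixed point; `k = 2 l - 1`:
`τ (r^l d) = r (s (r^l d)) = r^(1-l) (s d) = r^l d`, a fixed point of `τ`. So for `p : P` there is a
unique `h p : DihedralGroup N` (`r i ↦ r^i d₀`, `sr i ↦ s (r^i d₀)`) with `p • d₀ = h p d₀`.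
`(p q) • d₀ = p • (h q d₀) = h q (p • d₀) = (h q * h p) d₀` (check the four cases with the
multiplication of `DihedralGroup`: `r i * r j = r (i+j)`, `r i * sr j = sr (j - i)`,
`sr i * r j = sr (i + j)`, `sr i * sr j = r (j - i)`). So `p ↦ (h p)⁻¹` is a homomorphism; it is
injective as `p • d₀ = d₀` implies `p = 1`. -/
def DHE_stmt : Prop :=
  ∀ (D P : Type) [Finite D] [Group P] [MulAction P D] (s τ : D → D) (d₀ : D),
    (∀ d, s (s d) = d) → (∀ d, τ (τ d) = d) → (∀ d, s d ≠ d) → (∀ d, τ d ≠ d) →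
    (∀ (p : P) (d : D), p • s d = s (p • d)) → (∀ (p : P) (d : D), p • τ d = τ (p • d)) →
    (∀ p : P, p • d₀ = d₀ → p = 1) → (∀ p : P, cir s τ (p • d₀) = cir s τ d₀) →
    ∃ k, 0 < k ∧ ∃ f : P →* DihedralGroup k, Function.Injective f

/-- FXC: a 2-group fixes a transition system with three circuits and one of its circuits.
Proof: EQP (`B τ` = three circuits, CJI) gives an invariant `τ`; `P` acts on the set of its three
circuits (`Cir symm τ`, `gav τ False = 3` is its cardinality), `IsPGroup` and 3 odd: a fixed point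
(`IsPGroup.nonempty_fixed_point_of_prime_not_dvd_card`). -/
def FXC_stmt : Prop :=
  ∀ (V : Type) [Fintype V] (G : SimpleGraph V) (P : Subgroup (G ≃g G)), IsPGroup 2 P →
    Odd (N3 G) → ∃ (τ : G.Dart → G.Dart) (d₀ : G.Dart), IsTS τ ∧ (∀ p ∈ P, Inv p τ) ∧
      ∀ p ∈ P, cir (fun d : G.Dart => d.symm) τ (sd p d₀) = cir (fun d : G.Dart => d.symm) τ d₀

/-- DH: part (3). Proof: FXC, FRE, DHE (`P` acts on the darts by `sd`). -/
def DH_stmt : Prop :=
  ∀ (V : Type) [Fintype V] (G : SimpleGraph V) (P : Subgroup (G ≃g G)), IsPGroup 2 P →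
    Odd (N3 G) → (∀ σ : G ≃g G, Invol σ → ∀ d : G.Dart, sd σ d ≠ d) →
    ∃ k, 0 < k ∧ ∃ f : P →* DihedralGroup k, Function.Injective f

/-! ## L. Assembly -/

/-- FIN: the theorem. Proof: LNK3, CNX, `CT.fin_twins` (no twins). An involution without fixed
darts: IV0; with a fixed dart: IV1 or IV2. Part 2: TR4 and OR4. Part 3: DH. -/
def FIN_stmt : Prop :=
  ∀ (V : Type) [Fintype V] [DecidableEq V] (G : SimpleGraph V), FourRegular G →
    7 ≤ Fintype.card V → (∃ v, ¬ C2Is (decompletion G v) (ZMod 2) 0) →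
    (∀ σ : G ≃g G, Invol σ → nfx σ ≤ 2 ∧ nin σ ≤ 2 ∧
      (∀ u w, G.Adj u w → ¬ (σ u = u ∧ σ w = w)) ∧ ¬ (nfx σ = 1 ∧ nin σ = 0)) ∧
    (∀ v, ¬ ∀ u w, G.Adj v u → G.Adj v w → ∃ σ : G ≃g G, σ v = v ∧ σ u = w) ∧
    ∀ P : Subgroup (G ≃g G), IsPGroup 2 P →
      ∃ k, 0 < k ∧ ∃ f : P →* DihedralGroup k, Function.Injective f

end Pool.Agent.SYM
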